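import Pool.Agent.U231.FF.Res
import Pool.Agent.N876.CG.Alg
import Pool.Agent.N876.CG.RelT

/-!
# Varieties of Fermat type satisfy the hypotheses of the library `N876.CG`
-/

set_option autoImplicit false

open Finset Polynomial CategoryTheory AlgebraicGeometry

namespace Pool.Agent.U231.FR

open Pool.Agent.H914 Pool.Agent.H914.VarClass Pool.Agent.H914.VarClass.Obj Pool.Agent.W492.BB
  Pool.Agent.W484.CH Pool.Agent.U231.FF

section

variable {κ : Type} [Field κ] [Fintype κ]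

theorem fermat_ne_zero {p : ℕ} {N s : ℕ} (hN : N.Prime) {α : ℂ} (h : IsFermatNumber κ p N s α) :
    α ≠ 0 := by
  obtain ⟨θ, ψ, a, e, i, j, hθ, hψ, ha0, -, -, he, heq⟩ := h
  have hNe : NeZero N := ⟨hN.pos.ne'⟩
  have hq : (Fintype.card κ : ℂ) ≠ 0 := by exact_mod_cast Fintype.card_ne_zero
  intro h0
  rw [h0, zero_mul, zero_pow he.ne'] at heq
  have h1 : (Fintype.card κ : ℂ) ^ j * (a.map fun x => gaussSum (θ ^ x.val) ψ).prod ≠ 0 := by
    refine mul_ne_zero (pow_ne_zero _ hq) (Multiset.prod_ne_zero ?_)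
    intro h2
    obtain ⟨x, hx, h3⟩ := Multiset.mem_map.1 h2
    refine gaussSum_ne_zero_of_nontrivial hq ?_ (AddChar.IsPrimitive.of_ne_one hψ) h3
    intro h4
    have h5 : x ≠ 0 := fun h6 => ha0 (h6 ▸ hx)
    have h6 : N ∣ x.val := by
      have h9 := orderOf_dvd_of_pow_eq_one h4
      rwa [hθ] at h9
    have h7 : 0 < x.val := Nat.pos_of_ne_zero fun h8 => h5 ((ZMod.val_eq_zero x).1 h8)
    exact absurd (Nat.le_of_dvd h7 h6) (not_le.2 (ZMod.val_lt x))
  exact pow_ne_zero _ h1 heq.symm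

end

section

variable {κ : Type} [Field κ] [Fintype κ] {p : ℕ} [Fact p.Prime] [CharP κ p]
  {𝒱 : VarClass κ} {A : TheoryData.{0, 0, 0} 𝒱 ℚ} [IsChow A] {K : Type} [Field K]
  [CharZero K] {H : WeilTheoryData.{0, 0, 0} A K} [IsWeil H]

/-- **Varieties of Fermat type of different prime degrees.** -/
theorem cr_of (τ : K →+* ℂ) {F : ∀ X : 𝒱.Obj, X ⟶ X} {ι : Type} {X : ι → 𝒱.Obj} {Z : 𝒱.Obj}
    {χ : ℚ[X]} {N s : ι → ℕ} (hprime : ∀ i, (N i).Prime) (hne : ∀ i j, i ≠ j → N i ≠ N j)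
    (hstd : IsStandard H) (hfrob : ∀ X, IsFrobenius A (F X) (Fintype.card κ))
    (hprod : ∀ X Y, F (X.prod Y) = prodMap (F X) (F Y))
    (T : ∀ i, Submodule K (H.A (X i))) (hT : ∀ i, ∀ t ∈ T i, frob H (F (X i)) t ∈ T i)
    (hTtop : ∀ i, Pool.Agent.N876.CG.AT H (X i) ⊔ T i = ⊤)
    (hferm : ∀ i α, Module.End.HasEigenvalue ((frob H (F (X i))).restrict (hT i)) α →
      IsFermatNumber κ p (N i) (s i) (τ α))
    (halg : ∀ β, (frob H (F Z)).HasEigenvalue β → IsAlgebraic ℚ (τ β))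
    (hbase : IsSmallBase p N s
      {b | ∃ β ρ : K, (frob H (F Z)).HasEigenvalue β ∧ aeval ρ χ = 0 ∧ τ (β * ρ) = b}) :
    Pool.Agent.N876.CG.Cr H F (Fintype.card κ) X Z
      (fun i => {α | Module.End.HasEigenvalue ((frob H (F (X i))).restrict (hT i)) α})
      {ρ | aeval ρ χ = 0} := by
  have hinj : Function.Injective N := by
    intro i i' h
    by_contra hcon
    exact hne i i' hcon h
  have hres : ∀ SZ : Set K, BaseOK p τ N s SZ →
      Pool.Agent.N876.FL.NoResF (Fintype.card κ : K)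
        (fun i => {α | Module.End.HasEigenvalue ((frob H (F (X i))).restrict (hT i)) α}) SZ :=
    fun SZ hSZ => nores (κ := κ) (p := p) τ hprime hinj (fun i α hα => hferm i α hα) hSZ
  exact
    { std := hstd
      one_lt := Fintype.one_lt_card
      frob := hfrob
      prod := hprod
      cg := fun i => ⟨T i, hT i, hTtop i, fun α hα => hα⟩
      int := fun i α hα => Pool.Agent.N876.CG.integral_of_emb τ (fermat_alg (hferm i α hα))
      ne := fun i α hα h0 => fermat_ne_zero (hprime i) (hferm i α hα) (by rw [h0, map_zero])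
      intZ := fun β hβ => Pool.Agent.N876.CG.integral_of_emb τ (halg β hβ)
      res := by
        refine hres _ ?_
        rintro γ ⟨β, ρ, hβ, hρ, rfl⟩
        exact hbase _ ⟨β, ρ, hβ, hρ, rfl⟩
      res1 := hres _ (baseOK_one τ hprime) }

end

end Pool.Agent.U231.FR
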