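import Pool.Agent.U231.FR.Base

/-!
# Pairings on the motivic cohomology of products with varieties of Fermat type: definitions
-/

set_option autoImplicit false

open Finset Polynomial CategoryTheory AlgebraicGeometry

namespace Pool.Agent.U231.FR.Pa

open Pool.Agent.H914 Pool.Agent.H914.VarClass Pool.Agent.H914.VarClass.Obj Pool.Agent.W492.BB
  Pool.Agent.W484.CK Pool.Agent.U231.FF Pool.Agent.U231.FR.Base

variable {κ : Type} [Field κ] {𝒱 : VarClass κ} {A : TheoryData.{0, 0, 0} 𝒱 ℚ}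

/-- The restriction of the bilinear form `b` to the subspaces `V'` and `W'` is a perfect pairing: the
maps from `V'` to the dual space of `W'` and from `W'` to the dual space of `V'` are bijective. -/
def IsPerfectOn {V W : Type} [AddCommGroup V] [Module ℚ V] [AddCommGroup W] [Module ℚ W]
    (b : V →ₗ[ℚ] W →ₗ[ℚ] ℚ) (V' : Submodule ℚ V) (W' : Submodule ℚ W) : Prop :=
  Function.Bijective (b.domRestrict₁₂ V' W') ∧ Function.Bijective (b.domRestrict₁₂ V' W').flip

/-- A correspondence and its transpose are adjoint for the pairings `cup`. -/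
def IsAdjoint (T R : MotivicData A) (cup : ∀ X : 𝒱.Obj, T.M X →ₗ[ℚ] R.M X →ₗ[ℚ] ℚ) : Prop :=
  ∀ {X Y : 𝒱.Obj} (Γ : A.A (X.prod Y)) (t : T.M X) (r : R.M Y),
    cup Y (T.app Γ t) r = cup X t (R.app (A.down (Obj.lift (snd X Y) (fst X Y)) Γ) r)

/-- The pairing between `T^(dim X + e - n)(X)` and `R^n(X)` is perfect. -/
def IsPerfectIn (T R : MotivicData A) (cup : ∀ X : 𝒱.Obj, T.M X →ₗ[ℚ] R.M X →ₗ[ℚ] ℚ) (e : ℤ)
    (X : 𝒱.Obj) (n : ℤ) : Prop :=
  IsPerfectOn (cup X) (T.gr X (X.dim + e - n)) (R.gr X n)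

end Pool.Agent.U231.FR.Pa
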