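import Pool.Agent.N876.CG.PairT
import Pool.Agent.W484.CK.Main
import Pool.Agent.U231.FR.PaDefs
import Pool.Agent.U231.FR.Crd

/-!
# Pairings on the motivic cohomology of products with varieties of Fermat type
-/

set_option autoImplicit false

open Finset Polynomial CategoryTheory AlgebraicGeometry

namespace Pool.Agent.U231.FR.Pa

open Pool.Agent.H914 Pool.Agent.H914.VarClass Pool.Agent.H914.VarClass.Obj Pool.Agent.W492.BB
  Pool.Agent.W484.CK Pool.Agent.U231.FF Pool.Agent.U231.FR.Base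

theorem tw_eq {κ : Type} [Field κ] {𝒱 : VarClass κ} {ι : Type} (X : ι → 𝒱.Obj) (Z : 𝒱.Obj)
    (L : List ι) : productOf X Z L = Pool.Agent.N876.CG.tw X Z L := by
  induction L with
  | nil => rfl
  | cons i L ih => rw [productOf, Pool.Agent.N876.CG.tw, ih]

theorem dims_eq {κ : Type} [Field κ] {𝒱 : VarClass κ} {ι : Type} (X : ι → 𝒱.Obj) (L : List ι) :
    dimension X L = Pool.Agent.N876.CG.dims X L := by
  induction L with
  | nil => rfl
  | cons i L ih => rw [dimension, Pool.Agent.N876.CG.dims, ih]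

section

variable {κ : Type} [Field κ] {𝒱 : VarClass κ} {A : TheoryData.{0, 0, 0} 𝒱 ℚ}

theorem perf_iff {T R : MotivicData A} {cup : ∀ X : 𝒱.Obj, T.M X →ₗ[ℚ] R.M X →ₗ[ℚ] ℚ} {e : ℤ}
    {X : 𝒱.Obj} {n : ℤ} : IsPerfectIn T R cup e X n ↔
      Pool.Agent.N876.CG.Perf (toCorr T) (toCorr R) cup e X n := by
  constructor
  · rintro ⟨h1, h2⟩
    exact ⟨h1, h2⟩
  · intro h
    exact ⟨h.bijective_left, h.bijective_right⟩

end

theorem main (p : ℕ) [Fact p.Prime] (κ : Type) [Field κ] [Fintype κ] [CharP κ p] {ι : Type}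
    (N s : ι → ℕ) {𝒱 : VarClass κ} (A : TheoryData.{0, 0, 0} 𝒱 ℚ) [IsChow A] {K : Type} [Field K]
    [IsAlgClosed K] [CharZero K] (H : WeilTheoryData.{0, 0, 0} A K) [IsWeil H] (τ : K →+* ℂ)
    (F : ∀ X : 𝒱.Obj, X ⟶ X) (X : ι → 𝒱.Obj) (Z : 𝒱.Obj) (χ : ℚ[X])
    (h : IsFermatSystem p N s H τ F X Z χ) (hnil : ∀ L, Nilpotence H (productOf X Z L))
    (T R : MotivicData A) (φT : ∀ X, T.M X →ₗ[ℚ] T.M X) (φR : ∀ X, R.M X →ₗ[ℚ] R.M X)
    (hT : IsCycleTheory T φT F (Fintype.card κ)) (hT0 : IsRoot T φT χ)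
    (hR : IsCycleTheory R φR F (Fintype.card κ)) (hR0 : IsRoot R φR χ)
    (cup : ∀ X : 𝒱.Obj, T.M X →ₗ[ℚ] R.M X →ₗ[ℚ] ℚ) (hadj : IsAdjoint T R cup) (e : ℤ)
    (L : List ι) (hL : L.Nodup) (n : ℤ) :
    IsPerfectIn T R cup e (productOf X Z L) n ↔
      ∀ l : ℤ, n - dimension X L ≤ l → l ≤ n → IsPerfectIn T R cup e Z l := by
  obtain ⟨⟨hprime, hne⟩, hstd, hfrob, hprod, hferm, hpol, halg, hχ0, hbase⟩ := h
  choose T₀ hT₀ hTtop hTS using hferm
  have hsys := Pool.Agent.U231.FR.cr_of (p := p) (χ := χ) τ hprime hne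
    (isStandard_bridge hstd) (fun X => isFrobenius_bridge (hfrob X)) hprod T₀ hT₀ hTtop hTS
    (fun β hβ => halg _ ⟨β, hβ, rfl⟩) hbase
  have hrel : ∀ (T : MotivicData A) (φ : ∀ X, T.M X →ₗ[ℚ] T.M X),
      IsCycleTheory T φ F (Fintype.card κ) → IsRoot T φ χ →
      Pool.Agent.N876.CG.RelTheory (toCorr T) φ F (Fintype.card κ) χ := fun T φ hT hT0 =>
    { corr := toCorr_isCorrTheory hT.motivic
      comm := hT.comm
      power := fun X n t ht => ⟨1, by
        rw [pow_one]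
        exact hT.power ht⟩
      poly := fun X n t ht => hT0 ht }
  have hnil' : ∀ (T : MotivicData A), IsMotivic T → ∀ L,
      Pool.Agent.N876.CG.NilT H (toCorr T) (Pool.Agent.N876.CG.tw X Z L) := fun T hT L =>
    Pool.Agent.N876.CG.nilT_of (toCorr_isCorrTheory hT) (by
      rw [← tw_eq]
      exact nilpotence_bridge (hnil L))
  simp only [perf_iff]
  rw [tw_eq, dims_eq]
  refine Pool.Agent.N876.CG.dims_induct (fun V n => Pool.Agent.N876.CG.Perf (toCorr T) (toCorr R)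
    cup e V n) ?_ hL n
  intro i L hi hL
  obtain ⟨J, hJ, deg, D, E, h1, h2, h3, h4⟩ := hsys.step2 hi hL
  obtain ⟨h5, -⟩ := h4 (toCorr T) φT χ hχ0 (fun ρ hρ => hρ) (hrel T φT hT hT0)
    (hnil' T hT.motivic (i :: L))
  obtain ⟨-, h6⟩ := h4 (toCorr R) φR χ hχ0 (fun ρ hρ => hρ) (hrel R φR hR hR0)
    (hnil' R hR.motivic (i :: L))
  refine ⟨J, fun j => (X i).dim - deg j, fun j => Nat.sub_le _ _, fun l hl => ?_, fun n => ?_⟩
  · obtain ⟨j, hj⟩ := Pool.Agent.N876.CG.exists_deg_big (hpol i) h2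
      (show (X i).dim - l ≤ (X i).dim from Nat.sub_le _ _)
    refine ⟨j, ?_⟩
    change (X i).dim - deg j = l
    rw [hj]
    omega
  · exact Pool.Agent.N876.CG.perf_deg (toCorr_isCorrTheory hT.motivic)
      (toCorr_isCorrTheory hR.motivic) hadj h1 h5 h6 e n

end Pool.Agent.U231.FR.Pa
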