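import Pool.Agent.U231.FR.Base
import Pool.Agent.Y154.BQ.Defs

/-!
# Rational and numerical equivalence on products with varieties of Fermat type: definitions
-/

set_option autoImplicit false

open Finset Polynomial CategoryTheory AlgebraicGeometry

namespace Pool.Agent.U231.FR.Re

open Pool.Agent.H914 Pool.Agent.H914.VarClass Pool.Agent.H914.VarClass.Obj Pool.Agent.W492.BB
  Pool.Agent.W484.CK Pool.Agent.Y154.BQ Pool.Agent.U231.FF Pool.Agent.U231.FR.Base

variable {κ : Type} [Field κ] {𝒱 : VarClass κ} {A : TheoryData.{0, 0, 0} 𝒱 ℚ} {K : Type} [Field K]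

/-- `F` is the Frobenius endomorphism of the varieties over `κ`, the varieties `X i` are of Fermat
type of different prime degrees `N i`, the images under `τ` of the eigenvalues of the
Frobenius on the cohomology of `Z` satisfy `IsSmallBase`, and homologically trivial
self-correspondences of degree zero of the products of some of the `X i` and of `Z` are
nilpotent. -/
structure IsFermatFamily [Fintype κ] {ι : Type} (p : ℕ) (N s : ι → ℕ)
    (H : WeilTheoryData.{0, 0, 0} A K) (τ : K →+* ℂ) (F : ∀ X : 𝒱.Obj, X ⟶ X) (X : ι → 𝒱.Obj)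
    (Z : 𝒱.Obj) : Prop where
  primes : AreDifferentPrimes N
  standard : IsStandard H
  frobenius : ∀ X, IsFrobenius A (F X) (Fintype.card κ)
  product : ∀ X Y, F (X.prod Y) = prodMap (F X) (F Y)
  fermat : ∀ i, IsFermatType p (N i) (s i) H (F (X i)) τ
  polarized : ∀ i, IsPolarized H (X i)
  base : IsSmallBase p N s (eigenvaluesOf (H.pull (F Z)) τ)
  nilpotence : ∀ L : List ι, Nilpotence H (productOf X Z L)

/-- The Künneth formula for the Chow groups: there are finitely many cycles `D j` on `X` such that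
each class in `CH^i(X × V)` can be written in a unique way as `∑ D j × z j` with `z j` in
`CH^(i - deg D j)(V)`. -/
def Decomposes (A : TheoryData.{0, 0, 0} 𝒱 ℚ) (X V : 𝒱.Obj) : Prop :=
  ∃ (J : Type) (_ : Fintype J) (deg : J → ℕ) (D : J → A.A X), (∀ j, A.Deg (deg j) (D j)) ∧
    ∀ (i : ℤ) (x : A.A (X.prod V)), A.Deg i x → ∃! z : J → A.A V,
      (∀ j, A.Deg (i - deg j) (z j)) ∧ x = ∑ j, times A (D j) (z j)

/-- The conclusions for the product `V` of the `X i` with `i ∈ L` and of `Z`. -/
structure Conclusions {ι : Type} (H : WeilTheoryData.{0, 0, 0} A K) (X : ι → 𝒱.Obj) (Z : 𝒱.Obj)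
    (L : List ι) : Prop where
  perfect : ∀ n : ℤ, PerfectIn A (productOf X Z L) n ↔
    ∀ l : ℤ, n - dimension X L ≤ l → l ≤ n → PerfectIn A Z l
  ratEqNum : RatEqNum H (productOf X Z L) ↔ RatEqNum H Z
  ratEqHom : RatEqHom H (productOf X Z L) ↔ RatEqHom H Z
  decomposes : ∀ i, i ∉ L → Decomposes A (X i) (productOf X Z L)

end Pool.Agent.U231.FR.Re
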