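import Pool.Agent.N876.CG.Tower
import Pool.Agent.W484.CK.Main
import Pool.Agent.U231.FR.ReDefs
import Pool.Agent.U231.FR.Pa

/-!
# Rational and numerical equivalence on products with varieties of Fermat type
-/

set_option autoImplicit false

open Finset Polynomial CategoryTheory AlgebraicGeometry

namespace Pool.Agent.U231.FR.Re

open Pool.Agent.H914 Pool.Agent.H914.VarClass Pool.Agent.H914.VarClass.Obj Pool.Agent.W492.BB
  Pool.Agent.W484.CK Pool.Agent.Y154.BQ Pool.Agent.U231.FF Pool.Agent.U231.FR.Base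

theorem main (p : ℕ) [Fact p.Prime] (κ : Type) [Field κ] [Fintype κ] [CharP κ p] {ι : Type}
    (N s : ι → ℕ) {𝒱 : VarClass κ} (A : TheoryData.{0, 0, 0} 𝒱 ℚ) [IsChow A] {K : Type} [Field K]
    [IsAlgClosed K] [CharZero K] (H : WeilTheoryData.{0, 0, 0} A K) [IsWeil H] (τ : K →+* ℂ)
    (F : ∀ X : 𝒱.Obj, X ⟶ X) (X : ι → 𝒱.Obj) (Z : 𝒱.Obj)
    (h : IsFermatFamily p N s H τ F X Z) (L : List ι) (hL : L.Nodup) :
    Conclusions H X Z L := by
  obtain ⟨⟨hprime, hne⟩, hstd, hfrob, hprod, hferm, hpol, hbase, hnil⟩ := h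
  choose T₀ hT₀ hTtop hTS using hferm
  have hinj : Function.Injective N := by
    intro i i' h
    by_contra hcon
    exact hne i i' hcon h
  have hres : ∀ SZ : Set K, BaseOK p τ N s SZ →
      Pool.Agent.N876.FL.NoResF (Fintype.card κ : K)
        (fun i => {α | Module.End.HasEigenvalue
          ((Pool.Agent.W484.CH.frob H (F (X i))).restrict (hT₀ i)) α}) SZ :=
    fun SZ hSZ => nores (κ := κ) (p := p) τ hprime hinj (fun i α hα => hTS i α hα) hSZ
  have hsys : Pool.Agent.N876.CG.Cs H F (Fintype.card κ) X Z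
      (fun i => {α | Module.End.HasEigenvalue
          ((Pool.Agent.W484.CH.frob H (F (X i))).restrict (hT₀ i)) α}) :=
    { std := isStandard_bridge hstd
      one_lt := Fintype.one_lt_card
      frob := fun X => isFrobenius_bridge (hfrob X)
      prod := hprod
      cg := fun i => ⟨T₀ i, hT₀ i, hTtop i, fun α hα => hα⟩
      int := fun i α hα => Pool.Agent.N876.CG.integral_of_emb τ (fermat_alg (hTS i α hα))
      intZ := fun β hβ => Pool.Agent.N876.CG.integral_of_emb τ (hbase _ ⟨β, hβ, rfl⟩).1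
      res := hres _ fun β hβ => hbase _ ⟨β, hβ, rfl⟩
      res1 := hres _ (baseOK_one τ hprime)
      nil := fun L => by
        rw [← Pa.tw_eq]
        exact nilpotence_bridge (hnil L) }
  refine ⟨fun n => ?_, ?_, ?_, fun i hi => ?_⟩
  · rw [Pa.tw_eq, Pa.dims_eq]
    exact hsys.perfect_tw hpol hL n
  · rw [Pa.tw_eq]
    exact hsys.ratEqNum_tw hL
  · rw [Pa.tw_eq]
    clear hnil
    induction L with
    | nil => exact Iff.rfl
    | cons i L ih =>
      rw [List.nodup_cons] at hL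
      obtain ⟨J, hJ, deg, D, E, h1, h2, h3⟩ := hsys.chow_step hL.1 hL.2
      rw [← ih hL.2]
      exact Pool.Agent.W484.CH.ratEqHom_iff h1 h3
  · rw [Pa.tw_eq]
    obtain ⟨J, hJ, deg, D, E, h1, h2, h3⟩ := hsys.chow_step hi hL
    refine ⟨J, hJ, deg, D, h1.left, fun i y hy => ?_⟩
    obtain ⟨z, ⟨hz1, hz2⟩, hz3⟩ := h3 i y hy
    have h4 : ∀ z' : J → A.A (Pool.Agent.N876.CG.tw X Z L), ∑ j, times A (D j) (z' j) =
        ∑ j, (Pool.Agent.W484.CH.chowData A).act
          (Pool.Agent.W484.CH.extBy A (Pool.Agent.N876.CG.tw X Z L) (D j)) (z' j) := fun z' =>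
      Finset.sum_congr rfl fun j _ => (Pool.Agent.W484.CH.act_extBy A (D j) (z' j)).symm
    refine ⟨z, ⟨hz1, ?_⟩, fun z' hz' => hz3 z' ⟨hz'.1, ?_⟩⟩
    · rw [h4 z]
      exact hz2
    · rw [← h4 z']
      exact hz'.2

end Pool.Agent.U231.FR.Re
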