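import Pool.Agent.U231.FR.Base

/-!
# Vanishing of motivic cohomology for products with varieties of Fermat type: definitions
-/

set_option autoImplicit false

open Finset Polynomial CategoryTheory AlgebraicGeometry

namespace Pool.Agent.U231.FR.Va

open Pool.Agent.H914 Pool.Agent.H914.VarClass Pool.Agent.H914.VarClass.Obj Pool.Agent.W492.BB
  Pool.Agent.W484.CK Pool.Agent.U231.FF Pool.Agent.U231.FR.Base

variable {κ : Type} [Field κ] {𝒱 : VarClass κ} {A : TheoryData.{0, 0, 0} 𝒱 ℚ}

/-- `T^n(X) = 0`. -/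
def Vanishes (T : MotivicData A) (X : 𝒱.Obj) (n : ℤ) : Prop := ∀ t : T.M X, T.Deg n t → t = 0

/-- The Künneth formula: `T^n(X × V)` is the direct sum of the `D j × T^(n - deg j)(V)` for all `n`,
for finitely many cycles `D j` on `X`. -/
def Decomposes (T : MotivicData A) (X V : 𝒱.Obj) : Prop :=
  ∃ (J : Type) (_ : Fintype J) (deg : J → ℕ) (D : J → A.A X), (∀ j, A.Deg (deg j) (D j)) ∧
    HasKunneth T X V deg D

/-- The conclusions for the product `V` of the `X i` with `i ∈ L` and of `Z`. -/
structure Conclusions {ι : Type} (X : ι → 𝒱.Obj) (Z : 𝒱.Obj) (T : MotivicData A) (L : List ι) :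
    Prop where
  vanishes : ∀ n : ℤ, Vanishes T (productOf X Z L) n ↔
    ∀ l : ℤ, n - dimension X L ≤ l → l ≤ n → Vanishes T Z l
  decomposes : ∀ i, i ∉ L → Decomposes T (X i) (productOf X Z L)

end Pool.Agent.U231.FR.Va
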