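import Pool.Agent.N876.CG.Tower
import Pool.Agent.W484.CK.Main
import Pool.Agent.U231.FR.VaDefs
import Pool.Agent.U231.FR.Pa

/-!
# Vanishing of motivic cohomology for products with varieties of Fermat type
-/

set_option autoImplicit false

open Finset Polynomial CategoryTheory AlgebraicGeometry

namespace Pool.Agent.U231.FR.Va

open Pool.Agent.H914 Pool.Agent.H914.VarClass Pool.Agent.H914.VarClass.Obj Pool.Agent.W492.BB
  Pool.Agent.W484.CK Pool.Agent.U231.FF Pool.Agent.U231.FR.Base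

theorem vanishes_iff {κ : Type} [Field κ] {𝒱 : VarClass κ} {A : TheoryData.{0, 0, 0} 𝒱 ℚ}
    {T : MotivicData A} {X : 𝒱.Obj} {n : ℤ} : Vanishes T X n ↔ (toCorr T).gr X n = ⊥ := by
  rw [Submodule.eq_bot_iff]
  rfl

theorem main (p : ℕ) [Fact p.Prime] (κ : Type) [Field κ] [Fintype κ] [CharP κ p] {ι : Type}
    (N s : ι → ℕ) {𝒱 : VarClass κ} (A : TheoryData.{0, 0, 0} 𝒱 ℚ) [IsChow A] {K : Type} [Field K]
    [IsAlgClosed K] [CharZero K] (H : WeilTheoryData.{0, 0, 0} A K) [IsWeil H] (τ : K →+* ℂ)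
    (F : ∀ X : 𝒱.Obj, X ⟶ X) (X : ι → 𝒱.Obj) (Z : 𝒱.Obj) (χ : ℚ[X])
    (h : IsFermatSystem p N s H τ F X Z χ) (hnil : ∀ L, Nilpotence H (productOf X Z L))
    (T : MotivicData A) (φ : ∀ X, T.M X →ₗ[ℚ] T.M X)
    (hT : IsCycleTheory T φ F (Fintype.card κ)) (hT0 : IsRoot T φ χ)
    (L : List ι) (hL : L.Nodup) : Conclusions X Z T L := by
  obtain ⟨⟨hprime, hne⟩, hstd, hfrob, hprod, hferm, hpol, halg, hχ0, hbase⟩ := h
  choose T₀ hT₀ hTtop hTS using hferm
  have hsys := Pool.Agent.U231.FR.cr_of (p := p) (χ := χ) τ hprime hne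
    (isStandard_bridge hstd) (fun X => isFrobenius_bridge (hfrob X)) hprod T₀ hT₀ hTtop hTS
    (fun β hβ => halg _ ⟨β, hβ, rfl⟩) hbase
  have hrel : Pool.Agent.N876.CG.RelTheory (toCorr T) φ F (Fintype.card κ) χ :=
    { corr := toCorr_isCorrTheory hT.motivic
      comm := hT.comm
      power := fun X n t ht => ⟨1, by
        rw [pow_one]
        exact hT.power ht⟩
      poly := fun X n t ht => hT0 ht }
  have hnil' : ∀ L, Pool.Agent.N876.CG.NilT H (toCorr T) (Pool.Agent.N876.CG.tw X Z L) :=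
    fun L => Pool.Agent.N876.CG.nilT_of (toCorr_isCorrTheory hT.motivic) (by
      rw [← Pa.tw_eq]
      exact nilpotence_bridge (hnil L))
  refine ⟨fun n => ?_, fun i hi => ?_⟩
  · simp only [vanishes_iff]
    rw [Pa.tw_eq, Pa.dims_eq]
    exact hsys.induct hpol (fun V n => (toCorr T).gr V n = ⊥) (toCorr T) φ χ hχ0
      (fun ρ hρ => hρ) hrel hnil' (fun i V J _ deg D E h1 h2 n =>
        Pool.Agent.N876.CG.vanish_deg h1 (toCorr_isCorrTheory hT.motivic) h2 n) hL n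
  · rw [Pa.tw_eq]
    obtain ⟨J, hJ, deg, D, E, h1, h2, h3⟩ := hsys.step hi hL
    exact ⟨J, hJ, deg, D, h1.left, h3 _ φ χ hχ0 (fun ρ hρ => hρ) hrel (hnil' (i :: L))⟩

end Pool.Agent.U231.FR.Va
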