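import Pool.Agent.W484.CK.Motivic
import Pool.Agent.U231.FF.Com

/-!
# Products with varieties of Fermat type over finite fields: definitions

Adapted from the definitions of helper876 (`N876/R816/Defs`) and helper222 (`U222/SL/R8Defs`).
-/

set_option autoImplicit false

open Finset Polynomial CategoryTheory AlgebraicGeometry

namespace Pool.Agent.U231.FR.Base

open Pool.Agent.H914 Pool.Agent.H914.VarClass Pool.Agent.H914.VarClass.Obj Pool.Agent.W492.BB
  Pool.Agent.W484.CK Pool.Agent.U231.FF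

/-- An endomorphism of an algebra as a linear map. -/
def ofHom {K H : Type} [Field K] [Ring H] [Algebra K H] (g : H →ₐ[K] H) : Module.End K H :=
  g.toLinearMap

/-- `IsFermatCohomology` for an endomorphism of an algebra. -/
def IsFermatAlgebra (κ : Type) [Field κ] [Fintype κ] (p N s : ℕ) {K H : Type} [Field K]
    [Ring H] [Algebra K H] (P : Submodule K H) (φ : H →ₐ[K] H) (τ : K →+* ℂ) : Prop :=
  IsFermatCohomology κ p N s P (ofHom φ) τ

/-- The images of the eigenvalues of an endomorphism of an algebra. -/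
def eigenvaluesOf {K H : Type} [Field K] [Ring H] [Algebra K H] (φ : H →ₐ[K] H) (τ : K →+* ℂ) :
    Set ℂ :=
  eigenvalues (ofHom φ) τ

/-- The images under `τ` of the products of the eigenvalues of an endomorphism of an algebra and
the roots of the polynomial `χ`. -/
def productsOf {K H : Type} [Field K] [CharZero K] [Ring H] [Algebra K H] (φ : H →ₐ[K] H)
    (χ : ℚ[X]) (τ : K →+* ℂ) : Set ℂ :=
  {b | ∃ β ρ : K, (ofHom φ).HasEigenvalue β ∧ aeval ρ χ = 0 ∧ τ (β * ρ) = b}

/-- The numbers `N i` are different prime numbers. -/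
structure AreDifferentPrimes {ι : Type} (N : ι → ℕ) : Prop where
  prime : ∀ i, (N i).Prime
  different : ∀ i j, i ≠ j → N i ≠ N j

section geometry

variable {κ : Type} [Field κ] {𝒱 : VarClass κ} {A : TheoryData.{0, 0, 0} 𝒱 ℚ} {K : Type} [Field K]

/-- The span of the classes of cycles on `X`. -/
def cycleSpan (H : WeilTheoryData.{0, 0, 0} A K) (X : 𝒱.Obj) : Submodule K (H.A X) :=
  Submodule.span K {a | ∃ (i : ℕ) (z : A.A X), A.Deg i z ∧ a = H.cl z}

/-- `X`, with the Frobenius endomorphism `φ`, is of Fermat type of degree `N` and length at most `s`: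
the cohomology is generated by the classes of cycles and a subspace, stable under the Frobenius,
such that the images under `τ` of the eigenvalues of the Frobenius on it are Fermat numbers. -/
def IsFermatType [Fintype κ] (p N s : ℕ) (H : WeilTheoryData.{0, 0, 0} A K) {X : 𝒱.Obj}
    (φ : X ⟶ X) (τ : K →+* ℂ) : Prop :=
  IsFermatAlgebra κ p N s (cycleSpan H X) (H.pull φ) τ

/-- There is a divisor on `X` whose power with the exponent `dim X` is not zero in the cohomology. -/
def IsPolarized (H : WeilTheoryData.{0, 0, 0} A K) (X : 𝒱.Obj) : Prop :=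
  ∃ D : A.A X, A.Deg 1 D ∧ H.cl D ^ X.dim ≠ 0

/-- The product `X i₁ × (X i₂ × (⋯ × Z))`. -/
noncomputable def productOf {ι : Type} (X : ι → 𝒱.Obj) (Z : 𝒱.Obj) : List ι → 𝒱.Obj
  | [] => Z
  | i :: L => (X i).prod (productOf X Z L)

/-- The sum of the dimensions of the `X i`. -/
def dimension {ι : Type} (X : ι → 𝒱.Obj) : List ι → ℕ
  | [] => 0
  | i :: L => (X i).dim + dimension X L

/-- `F` is the Frobenius endomorphism of the varieties over `κ`, the varieties `X i` are of Fermat
type of different prime degrees `N i`, and `Z` and the polynomial `χ` satisfy `IsSmallBase`. -/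
structure IsFermatSystem [Fintype κ] [CharZero K] {ι : Type} (p : ℕ) (N s : ι → ℕ)
    (H : WeilTheoryData.{0, 0, 0} A K) (τ : K →+* ℂ) (F : ∀ X : 𝒱.Obj, X ⟶ X) (X : ι → 𝒱.Obj)
    (Z : 𝒱.Obj) (χ : ℚ[X]) : Prop where
  primes : AreDifferentPrimes N
  standard : IsStandard H
  frobenius : ∀ X, IsFrobenius A (F X) (Fintype.card κ)
  product : ∀ X Y, F (X.prod Y) = prodMap (F X) (F Y)
  fermat : ∀ i, IsFermatType p (N i) (s i) H (F (X i)) τ
  polarized : ∀ i, IsPolarized H (X i)
  algebraic : ∀ b ∈ eigenvaluesOf (H.pull (F Z)) τ, IsAlgebraic ℚ b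
  ne_zero : χ.coeff 0 ≠ 0
  base : IsSmallBase p N s (productsOf (H.pull (F Z)) χ τ)

/-- The maps `φ` commute with the operation of correspondences. -/
def IsCommuting (R : MotivicData A) (φ : ∀ X, R.M X →ₗ[ℚ] R.M X) : Prop :=
  ∀ {X Y : 𝒱.Obj} (Γ : A.A (X.prod Y)) (r : R.M X), φ Y (R.app Γ r) = R.app Γ (φ X r)

/-- `χ (φ) = 0` in all degrees. -/
def IsRoot (R : MotivicData A) (φ : ∀ X, R.M X →ₗ[ℚ] R.M X) (χ : ℚ[X]) : Prop :=
  ∀ {X : 𝒱.Obj} {n : ℤ} {r : R.M X}, R.Deg n r → aeval (φ X) χ r = 0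

/-- `Φ r - q ^ n r`, where `Φ` is the Frobenius endomorphism of `X × U`: the product of `φ` and of
the Frobenius endomorphism of `X`. -/
noncomputable def defect (R : MotivicData A) (φ : ∀ X, R.M X →ₗ[ℚ] R.M X)
    (F : ∀ X : 𝒱.Obj, X ⟶ X) (q : ℕ) (X : 𝒱.Obj) (n : ℤ) (r : R.M X) : R.M X :=
  R.app (A.down (Obj.lift (F X) (𝟙 X)) 1) (φ X r) - (q : ℚ) ^ n • r

/-- `T` is a theory with correspondences with an endomorphism `φ` which commutes with
correspondences, and the Frobenius endomorphism `Φ` is `q ^ n` on `T^n(X)`. -/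
structure IsCycleTheory (T : MotivicData A) (φ : ∀ X, T.M X →ₗ[ℚ] T.M X)
    (F : ∀ X : 𝒱.Obj, X ⟶ X) (q : ℕ) : Prop where
  motivic : IsMotivic T
  comm : IsCommuting T φ
  power : ∀ {X : 𝒱.Obj} {n : ℤ} {t : T.M X}, T.Deg n t → defect T φ F q X n t = 0

end geometry

end Pool.Agent.U231.FR.Base
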