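import Pool.Agent.W484.CK.Stm
import Pool.Agent.U231.FF.Com

/-!
# Definitions for `MP_3af9db_ag.FermatFactors`

Adapted from the definitions of helper222 (`U222/SL`) for `MP_3af9db_ag.LargePrimeCoverings` and `MP_3af9db_ag.HyperplaneCoverings` (helper876, `N876/GB3/Defs`).
-/

set_option autoImplicit false

open Finset Polynomial CategoryTheory AlgebraicGeometry
open scoped TensorProduct

namespace Pool.Agent.U231.FR.G3

open Pool.Agent.H914 Pool.Agent.H914.VarClass Pool.Agent.H914.VarClass.Obj Pool.Agent.W492.BB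
  Pool.Agent.W484.CK Pool.Agent.U231.FF

/-- An endomorphism of an algebra as a linear map. -/
def ofHom {K H : Type} [Field K] [Ring H] [Algebra K H] (g : H →ₐ[K] H) : Module.End K H :=
  g.toLinearMap

/-- `IsFermatCohomology` for an endomorphism of an algebra. -/
def IsFermatAlgebra (κ : Type) [Field κ] [Fintype κ] (p N s : ℕ) {K H : Type} [Field K]
    [Ring H] [Algebra K H] (P : Submodule K H) (φ : H →ₐ[K] H) (τ : K →+* ℂ) : Prop :=
  IsFermatCohomology κ p N s P (ofHom φ) τ

/-- The images of the eigenvalues of an endomorphism of an algebra. -/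
def eigenvaluesOf {K H : Type} [Field K] [Ring H] [Algebra K H] (φ : H →ₐ[K] H) (τ : K →+* ℂ) :
    Set ℂ :=
  eigenvalues (ofHom φ) τ

/-- The images under `τ` of the products of the eigenvalues of an endomorphism of an algebra and
the roots of the polynomial `χ`. -/
def productsOf {K H : Type} [Field K] [CharZero K] [Ring H] [Algebra K H] (φ : H →ₐ[K] H)
    (χ : ℚ[X]) (τ : K →+* ℂ) : Set ℂ :=
  {b | ∃ β ρ : K, (ofHom φ).HasEigenvalue β ∧ aeval ρ χ = 0 ∧ τ (β * ρ) = b}

/-- The numbers `N i` are different prime numbers. -/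
structure AreDifferentPrimes {ι : Type} (N : ι → ℕ) : Prop where
  prime : ∀ i, (N i).Prime
  different : ∀ i j, i ≠ j → N i ≠ N j

/-- The tensor product of `A` and `M`. -/
def Tens (K A M : Type) [Field K] [AddCommGroup A] [Module K A] [AddCommGroup M] [Module K M] :
    Type := A ⊗[K] M

noncomputable instance (K A M : Type) [Field K] [AddCommGroup A] [Module K A] [AddCommGroup M]
    [Module K M] : AddCommGroup (Tens K A M) :=
  @TensorProduct.addCommGroup K _ A M _ _ _ _

noncomputable instance (K A M : Type) [Field K] [AddCommGroup A] [Module K A] [AddCommGroup M]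
    [Module K M] : Module K (Tens K A M) :=
  @TensorProduct.instModule K _ A M _ _ _ _

/-- The element `a ⊗ x`. -/
noncomputable def Tens.tmul {K A M : Type} [Field K] [AddCommGroup A] [Module K A] [AddCommGroup M]
    [Module K M] (a : A) (x : M) : Tens K A M := a ⊗ₜ[K] x

/-- The map `f ⊗ g`. -/
noncomputable def Tens.map {K A M : Type} [Field K] [AddCommGroup A] [Module K A] [AddCommGroup M]
    [Module K M] (f : Module.End K A) (g : Module.End K M) : Module.End K (Tens K A M) :=
  TensorProduct.map f g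


section geometry

variable {κ : Type} [Field κ] {𝒱 : VarClass κ} {A : TheoryData.{0, 0, 0} 𝒱 ℚ} {K : Type} [Field K]

/-- The span of the classes of cycles on `X`. -/
def cycleSpan (H : WeilTheoryData.{0, 0, 0} A K) (X : 𝒱.Obj) : Submodule K (H.A X) :=
  Submodule.span K {a | ∃ (i : ℕ) (z : A.A X), A.Deg i z ∧ a = H.cl z}

/-- `X`, with the Frobenius endomorphism `φ`, is of Fermat type of degree `N` and length at most `s`:
the cohomology is generated by the classes of cycles and a subspace, stable under the Frobenius,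
such that the images under `τ` of the eigenvalues of the Frobenius on it are Fermat numbers. -/
def IsFermatType [Fintype κ] (p N s : ℕ) (H : WeilTheoryData.{0, 0, 0} A K) {X : 𝒱.Obj}
    (φ : X ⟶ X) (τ : K →+* ℂ) : Prop :=
  IsFermatAlgebra κ p N s (cycleSpan H X) (H.pull φ) τ

/-- There is a divisor on `X` whose power with the exponent `dim X` is not zero in the cohomology. -/
def IsPolarized (H : WeilTheoryData.{0, 0, 0} A K) (X : 𝒱.Obj) : Prop :=
  ∃ D : A.A X, A.Deg 1 D ∧ H.cl D ^ X.dim ≠ 0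

/-- The product `X i₁ × (X i₂ × (⋯ × Z))`. -/
noncomputable def productOf {ι : Type} (X : ι → 𝒱.Obj) (Z : 𝒱.Obj) : List ι → 𝒱.Obj
  | [] => Z
  | i :: L => (X i).prod (productOf X Z L)

/-- The sum of the dimensions of the `X i`. -/
def dimension {ι : Type} (X : ι → 𝒱.Obj) : List ι → ℕ
  | [] => 0
  | i :: L => (X i).dim + dimension X L

/-- `F` is the Frobenius endomorphism of the varieties over `κ`, the varieties `X i` are of Fermat
type of different prime degrees `N i`, and `Z` and the polynomial `χ` satisfy `IsSmallBase`. -/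
structure IsFermatSystem [Fintype κ] [CharZero K] {ι : Type} (p : ℕ) (N s : ι → ℕ)
    (H : WeilTheoryData.{0, 0, 0} A K) (τ : K →+* ℂ) (F : ∀ X : 𝒱.Obj, X ⟶ X) (X : ι → 𝒱.Obj)
    (Z : 𝒱.Obj) (χ : ℚ[X]) : Prop where
  primes : AreDifferentPrimes N
  standard : IsStandard H
  frobenius : ∀ X, IsFrobenius A (F X) (Fintype.card κ)
  product : ∀ X Y, F (X.prod Y) = prodMap (F X) (F Y)
  fermat : ∀ i, IsFermatType p (N i) (s i) H (F (X i)) τ
  polarized : ∀ i, IsPolarized H (X i)
  algebraic : ∀ b ∈ eigenvaluesOf (H.pull (F Z)) τ, IsAlgebraic ℚ b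
  ne_zero : χ.coeff 0 ≠ 0
  base : IsSmallBase p N s (productsOf (H.pull (F Z)) χ τ)

/-- The étale homology of a scheme `U` of dimension `e`: a vector space `M` with subspaces `W c` and
the Frobenius `μ`. -/
structure Homology (K : Type) [Field K] where
  M : Type
  [addCommGroup : AddCommGroup M]
  [module : Module K M]
  W : ℤ → Submodule K M
  μ : Module.End K M
  e : ℤ

attribute [instance] Homology.addCommGroup Homology.module

/-- The Frobenius preserves the degrees and satisfies the polynomial `χ`: `∑ b_n μ ^ n x = 0`, where the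
`b_n` are the coefficients of `χ`. -/
structure IsHomology (U : Homology K) (χ : ℚ[X]) : Prop where
  degree : ∀ (c : ℤ), ∀ x ∈ U.W c, U.μ x ∈ U.W c
  root : ∀ x : U.M, (χ.sum fun n b => (b : K) • (U.μ^[n]) x) = 0

namespace Homology

variable (U : Homology K) (H : WeilTheoryData.{0, 0, 0} A K)

/-- The space `R(X) = H(X) ⊗ M`. -/
def R (X : 𝒱.Obj) : Type := Tens K (H.A X) U.M

noncomputable instance (X : 𝒱.Obj) : AddCommGroup (U.R H X) :=
  instAddCommGroupTens K (H.A X) U.M

noncomputable instance (X : 𝒱.Obj) : Module K (U.R H X) :=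
  instModuleTens K (H.A X) U.M

variable {H}

/-- The element `a ⊗ x`. -/
noncomputable def tmul {X : 𝒱.Obj} (a : H.A X) (x : U.M) : U.R H X := Tens.tmul a x

/-- The Frobenius endomorphism `Φ` of `X × U` on `R(X)`. -/
noncomputable def Phi (F : ∀ X : 𝒱.Obj, X ⟶ X) (X : 𝒱.Obj) : Module.End K (U.R H X) :=
  Tens.map (ofHom (H.pull (F X))) U.μ

/-- `Φ v - q ^ n v`. -/
noncomputable def defect (F : ∀ X : 𝒱.Obj, X ⟶ X) (q : ℕ) {X : 𝒱.Obj} (n : ℤ) (v : U.R H X) :
    U.R H X := U.Phi F X v - (q : K) ^ n • v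

/-- `G` is the map `a ⊗ x ↦ g a ⊗ m x` from `R(X)` to `R(Y)`. -/
def IsTensor {X Y : 𝒱.Obj} (g : H.A X → H.A Y) (m : U.M → U.M) (G : U.R H X → U.R H Y) : Prop :=
  (∀ v w, G (v + w) = G v + G w) ∧ ∀ (a : H.A X) (x : U.M), G (U.tmul a x) = U.tmul (g a) (m x)

/-- The part of degree `m` of `R(X)`, the sum of the `H^a(X) ⊗ M^(m-a)`, where `W c = M^c`. -/
noncomputable def degreePart (H : WeilTheoryData.{0, 0, 0} A K) (X : 𝒱.Obj) (m : ℤ) :
    Submodule K (U.R H X) :=
  Submodule.span K {v | ∃ (i : ℤ) (a : H.A X) (x : U.M), H.Deg i a ∧ x ∈ U.W (m - i) ∧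
    v = U.tmul a x}

end Homology

/-- A theory: vector spaces `M(X)` over `ℚ` with subspaces `M^n(X)`, an operation of the classes in
`CH(X × Y)` as maps from `M(X)` to `M(Y)`, and maps `φ`. -/
structure Theory (A : TheoryData.{0, 0, 0} 𝒱 ℚ) where
  M : 𝒱.Obj → Type
  [group : ∀ X, AddCommGroup (M X)]
  [module : ∀ X, Module ℚ (M X)]
  gr : ∀ X : 𝒱.Obj, ℤ → Submodule ℚ (M X)
  app : ∀ {X Y : 𝒱.Obj}, A.A (X.prod Y) → M X → M Y
  φ : ∀ X : 𝒱.Obj, M X → M X

attribute [instance] Theory.group Theory.module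

/-- The operation of correspondences is bilinear, compatible with composition, and shifts the degrees
as usual. -/
structure IsTheory (T : Theory A) : Prop where
  left : ∀ {X Y : 𝒱.Obj} (z : T.M X), IsLinearMap ℚ fun c : A.A (X.prod Y) => T.app c z
  right : ∀ {X Y : 𝒱.Obj} (c : A.A (X.prod Y)), IsLinearMap ℚ (T.app c)
  mem : ∀ {X Y : 𝒱.Obj} {i j : ℤ} {c : A.A (X.prod Y)} {z : T.M X}, A.Deg (X.dim + j) c →
    z ∈ T.gr X i → T.app c z ∈ T.gr Y (i + j)
  comp : ∀ {X Y Z : 𝒱.Obj} (c : A.A (X.prod Y)) (d : A.A (Y.prod Z)) (z : T.M X),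
    T.app (compose A c d) z = T.app d (T.app c z)
  id : ∀ {X : 𝒱.Obj} (z : T.M X), T.app (diagonal A X) z = z

/-- `φ` is linear and commutes with correspondences, and the Frobenius endomorphism of `X × U`, the
product of `φ` and of the Frobenius endomorphism of `X`, is `q ^ n` on `M^n(X)`. -/
structure HasFrobenius (T : Theory A) (F : ∀ X : 𝒱.Obj, X ⟶ X) (q : ℕ) : Prop where
  linear : ∀ X : 𝒱.Obj, IsLinearMap ℚ (T.φ X)
  comm : ∀ {X Y : 𝒱.Obj} (c : A.A (X.prod Y)) (z : T.M X),
    T.φ Y (T.app c z) = T.app c (T.φ X z)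
  power : ∀ {X : 𝒱.Obj} {n : ℤ}, ∀ z ∈ T.gr X n,
    T.app (A.down (Obj.lift (F X) (𝟙 X)) 1) (T.φ X z) = (q : ℚ) ^ n • z

/-- `χ (φ) = 0`: `∑ b_n φ ^ n z = 0`, where the `b_n` are the coefficients of `χ`. -/
def IsRoot (T : Theory A) (χ : ℚ[X]) : Prop :=
  ∀ (X : 𝒱.Obj) (n : ℤ), ∀ z ∈ T.gr X n, (χ.sum fun n b => b • ((T.φ X)^[n]) z) = 0

/-- The maps `reg` from the theory `T` to `R(X)` are additive, send `T^n(X)` to the part of degree `2 n`
and commute with correspondences and with the Frobenius of `U`. -/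
structure IsRegulator {U : Homology K} {H : WeilTheoryData.{0, 0, 0} A K} (T : Theory A)
    (reg : ∀ X, T.M X → U.R H X) : Prop where
  add : ∀ {X : 𝒱.Obj} (z w : T.M X), reg X (z + w) = reg X z + reg X w
  mem : ∀ {X : 𝒱.Obj} {n : ℤ}, ∀ z ∈ T.gr X n, reg X z ∈ U.degreePart H X (2 * n)
  corr : ∀ {X Y : 𝒱.Obj} {c : A.A (X.prod Y)} {G : U.R H X → U.R H Y},
    U.IsTensor (H.act (H.cl c)) id G → ∀ z, reg Y (T.app c z) = G (reg X z)
  frob : ∀ {X : 𝒱.Obj} {G : U.R H X → U.R H X}, U.IsTensor id U.μ G →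
    ∀ z, reg X (T.φ X z) = G (reg X z)

/-- The codimension `dim X + e - i` of the cycles of dimension `i` on `X × U`. -/
def Homology.codim (U : Homology K) (X : 𝒱.Obj) (i : ℤ) : ℤ := X.dim + U.e - i

section maps

variable {U : Homology K} {H : WeilTheoryData.{0, 0, 0} A K} {T : Theory A}
  (reg : ∀ X, T.M X → U.R H X) (F : ∀ X : 𝒱.Obj, X ⟶ X) (q : ℕ) (X : 𝒱.Obj) (i : ℤ)

/-- `cl_i` is injective for `X × U`. -/
def Injective : Prop := ∀ z ∈ T.gr X (U.codim X i), reg X z = 0 → z = 0

/-- `cl_i` is surjective onto the invariants for `X × U`. -/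
def Surjective : Prop :=
  ∀ v ∈ U.degreePart H X (2 * U.codim X i), U.defect F q (U.codim X i) v = 0 →
    ∃ z ∈ T.gr X (U.codim X i), reg X z = v

/-- `cl_i` is an isomorphism for `X × U`. -/
def IsIso : Prop := Injective reg X i ∧ Surjective reg F q X i

variable (U H)

/-- `SS_i(X × U)`: the eigenvalue `1` of the Frobenius is semisimple. -/
def Semisimple : Prop :=
  ∀ v ∈ U.degreePart H X (2 * U.codim X i),
    U.defect F q (U.codim X i) (U.defect F q (U.codim X i) v) = 0 →
      U.defect F q (U.codim X i) v = 0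

end maps

/-- The conclusions for the product `V` of the `X i` with `i ∈ L` and of `Z`. -/
structure Conclusions {ι : Type} {U : Homology K} {H : WeilTheoryData.{0, 0, 0} A K}
    (F : ∀ X : 𝒱.Obj, X ⟶ X) (q : ℕ) (χ : ℚ[X]) (X : ι → 𝒱.Obj) (Z : 𝒱.Obj)
    (T : Theory A) (reg : ∀ X, T.M X → U.R H X) (L : List ι) : Prop where
  surjective : ∀ i : ℤ, Surjective reg F q (productOf X Z L) i ↔
    ∀ l : ℕ, l ≤ dimension X L → Surjective reg F q Z (i - l)
  semisimple : ∀ i : ℤ, Semisimple U H F q (productOf X Z L) i ↔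
    ∀ l : ℕ, l ≤ dimension X L → Semisimple U H F q Z (i - l)
  bijective : (∀ L, Nilpotence H (productOf X Z L)) → IsRoot T χ → ∀ i : ℤ,
    (Injective reg (productOf X Z L) i ↔
      ∀ l : ℕ, l ≤ dimension X L → Injective reg Z (i - l)) ∧
    (IsIso reg F q (productOf X Z L) i ↔ ∀ l : ℕ, l ≤ dimension X L → IsIso reg F q Z (i - l))

end geometry

end Pool.Agent.U231.FR.G3
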