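import Pool.Agent.W484.CK.Motivic
import Pool.Agent.U231.FF.Com

/-!
# Definitions for `MP_81632f_ag.FermatFactors`

Adapted from the definitions of helper222 (`U222/SL`) for `MP_81632f_ag.LargePrimeCoverings` and `MP_81632f_ag.HyperplaneCoverings` (helper876, `N876/R816/Defs`).
-/

set_option autoImplicit false

open Finset Polynomial CategoryTheory AlgebraicGeometry

namespace Pool.Agent.U231.FR.R8

open Pool.Agent.H914 Pool.Agent.H914.VarClass Pool.Agent.H914.VarClass.Obj Pool.Agent.W492.BB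
  Pool.Agent.W484.CK Pool.Agent.U231.FF

/-- An endomorphism of an algebra as a linear map. -/
def ofHom {K H : Type} [Field K] [Ring H] [Algebra K H] (g : H →ₐ[K] H) : Module.End K H :=
  g.toLinearMap

/-- `IsFermatCohomology` for an endomorphism of an algebra. -/
def IsFermatAlgebra (κ : Type) [Field κ] [Fintype κ] (p N s : ℕ) {K H : Type} [Field K]
    [Ring H] [Algebra K H] (P : Submodule K H) (φ : H →ₐ[K] H) (τ : K →+* ℂ) : Prop :=
  IsFermatCohomology κ p N s P (ofHom φ) τ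

/-- The images of the eigenvalues of an endomorphism of an algebra. -/
def eigenvaluesOf {K H : Type} [Field K] [Ring H] [Algebra K H] (φ : H →ₐ[K] H) (τ : K →+* ℂ) :
    Set ℂ :=
  eigenvalues (ofHom φ) τ

/-- The images under `τ` of the products of the eigenvalues of an endomorphism of an algebra and
the roots of the polynomial `χ`. -/
def productsOf {K H : Type} [Field K] [CharZero K] [Ring H] [Algebra K H] (φ : H →ₐ[K] H)
    (χ : ℚ[X]) (τ : K →+* ℂ) : Set ℂ :=
  {b | ∃ β ρ : K, (ofHom φ).HasEigenvalue β ∧ aeval ρ χ = 0 ∧ τ (β * ρ) = b}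

/-- The numbers `N i` are different prime numbers. -/
structure AreDifferentPrimes {ι : Type} (N : ι → ℕ) : Prop where
  prime : ∀ i, (N i).Prime
  different : ∀ i j, i ≠ j → N i ≠ N j

section geometry

variable {κ : Type} [Field κ] {𝒱 : VarClass κ} {A : TheoryData.{0, 0, 0} 𝒱 ℚ} {K : Type} [Field K]

/-- The span of the classes of cycles on `X`. -/
def cycleSpan (H : WeilTheoryData.{0, 0, 0} A K) (X : 𝒱.Obj) : Submodule K (H.A X) :=
  Submodule.span K {a | ∃ (i : ℕ) (z : A.A X), A.Deg i z ∧ a = H.cl z}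

/-- `X`, with the Frobenius endomorphism `φ`, is of Fermat type of degree `N` and length at most `s`:
the cohomology is generated by the classes of cycles and a subspace, stable under the Frobenius,
such that the images under `τ` of the eigenvalues of the Frobenius on it are Fermat numbers. -/
def IsFermatType [Fintype κ] (p N s : ℕ) (H : WeilTheoryData.{0, 0, 0} A K) {X : 𝒱.Obj}
    (φ : X ⟶ X) (τ : K →+* ℂ) : Prop :=
  IsFermatAlgebra κ p N s (cycleSpan H X) (H.pull φ) τ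

/-- There is a divisor on `X` whose power with the exponent `dim X` is not zero in the cohomology. -/
def IsPolarized (H : WeilTheoryData.{0, 0, 0} A K) (X : 𝒱.Obj) : Prop :=
  ∃ D : A.A X, A.Deg 1 D ∧ H.cl D ^ X.dim ≠ 0

/-- The product `X i₁ × (X i₂ × (⋯ × Z))`. -/
noncomputable def productOf {ι : Type} (X : ι → 𝒱.Obj) (Z : 𝒱.Obj) : List ι → 𝒱.Obj
  | [] => Z
  | i :: L => (X i).prod (productOf X Z L)

/-- The sum of the dimensions of the `X i`. -/
def dimension {ι : Type} (X : ι → 𝒱.Obj) : List ι → ℕ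
  | [] => 0
  | i :: L => (X i).dim + dimension X L

/-- `F` is the Frobenius endomorphism of the varieties over `κ`, the varieties `X i` are of Fermat
type of different prime degrees `N i`, and `Z` and the polynomial `χ` satisfy `IsSmallBase`. -/
structure IsFermatSystem [Fintype κ] [CharZero K] {ι : Type} (p : ℕ) (N s : ι → ℕ)
    (H : WeilTheoryData.{0, 0, 0} A K) (τ : K →+* ℂ) (F : ∀ X : 𝒱.Obj, X ⟶ X) (X : ι → 𝒱.Obj)
    (Z : 𝒱.Obj) (χ : ℚ[X]) : Prop where
  primes : AreDifferentPrimes N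
  standard : IsStandard H
  frobenius : ∀ X, IsFrobenius A (F X) (Fintype.card κ)
  product : ∀ X Y, F (X.prod Y) = prodMap (F X) (F Y)
  fermat : ∀ i, IsFermatType p (N i) (s i) H (F (X i)) τ
  polarized : ∀ i, IsPolarized H (X i)
  algebraic : ∀ b ∈ eigenvaluesOf (H.pull (F Z)) τ, IsAlgebraic ℚ b
  ne_zero : χ.coeff 0 ≠ 0
  base : IsSmallBase p N s (productsOf (H.pull (F Z)) χ τ)

/-- Homologically trivial correspondences of degree zero act as zero. -/
def IsHomological (H : WeilTheoryData.{0, 0, 0} A K) (R : MotivicData A) : Prop :=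
  ∀ {X : 𝒱.Obj} (Γ : A.A (X.prod X)), A.Deg X.dim Γ → (∀ a : H.A X, H.act (H.cl Γ) a = 0) →
    ∀ r : R.M X, R.app Γ r = 0

/-- The maps `φ` commute with the operation of correspondences. -/
def IsCommuting (R : MotivicData A) (φ : ∀ X, R.M X →ₗ[ℚ] R.M X) : Prop :=
  ∀ {X Y : 𝒱.Obj} (Γ : A.A (X.prod Y)) (r : R.M X), φ Y (R.app Γ r) = R.app Γ (φ X r)

/-- `χ (φ) = 0` in all degrees. -/
def IsRoot (R : MotivicData A) (φ : ∀ X, R.M X →ₗ[ℚ] R.M X) (χ : ℚ[X]) : Prop :=
  ∀ {X : 𝒱.Obj} {n : ℤ} {r : R.M X}, R.Deg n r → aeval (φ X) χ r = 0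

/-- `Φ r - q ^ n r`, where `Φ` is the Frobenius endomorphism of `X × U`: the product of `φ` and of
the Frobenius endomorphism of `X`. -/
noncomputable def defect (R : MotivicData A) (φ : ∀ X, R.M X →ₗ[ℚ] R.M X)
    (F : ∀ X : 𝒱.Obj, X ⟶ X) (q : ℕ) (X : 𝒱.Obj) (n : ℤ) (r : R.M X) : R.M X :=
  R.app (A.down (Obj.lift (F X) (𝟙 X)) 1) (φ X r) - (q : ℚ) ^ n • r

/-- `R` is a theory with correspondences with an endomorphism `φ` (the Frobenius on the
cohomology of a variety `U`), homologically trivial correspondences act as zero, `φ` preserves the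
degrees and commutes with correspondences, and `χ (φ)` is zero. -/
structure IsMixedTheory (H : WeilTheoryData.{0, 0, 0} A K) (R : MotivicData A)
    (φ : ∀ X, R.M X →ₗ[ℚ] R.M X) (χ : ℚ[X]) : Prop where
  motivic : IsMotivic R
  homological : IsHomological H R
  degree : ∀ {X : 𝒱.Obj} {n : ℤ} {r : R.M X}, R.Deg n r → R.Deg n (φ X r)
  comm : IsCommuting R φ
  root : IsRoot R φ χ

/-- `T` is a theory with correspondences with an endomorphism `φ` which commutes with
correspondences, and the Frobenius endomorphism `Φ` is `q ^ n` on `T^n(X)`. -/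
structure IsCycleTheory (T : MotivicData A) (φ : ∀ X, T.M X →ₗ[ℚ] T.M X)
    (F : ∀ X : 𝒱.Obj, X ⟶ X) (q : ℕ) : Prop where
  motivic : IsMotivic T
  comm : IsCommuting T φ
  power : ∀ {X : 𝒱.Obj} {n : ℤ} {t : T.M X}, T.Deg n t → defect T φ F q X n t = 0

/-- The maps `reg` from the theory `T` to the theory `R` preserve degrees and commute with the
operation of correspondences and with the Frobenius of `U`. -/
structure IsRegulator (T R : MotivicData A) (φT : ∀ X, T.M X →ₗ[ℚ] T.M X)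
    (φ : ∀ X, R.M X →ₗ[ℚ] R.M X) (reg : ∀ X, T.M X →ₗ[ℚ] R.M X) : Prop where
  mem : ∀ {X : 𝒱.Obj} {n : ℤ} {t : T.M X}, T.Deg n t → R.Deg n (reg X t)
  corr : ∀ {X Y : 𝒱.Obj} (Γ : A.A (X.prod Y)) (t : T.M X), reg Y (T.app Γ t) = R.app Γ (reg X t)
  frob : ∀ {X : 𝒱.Obj} (t : T.M X), reg X (φT X t) = φ X (reg X t)

/-- The eigenvalue `q ^ n` of `Φ` on `R^n(X)` is semisimple: the kernel of `(Φ - q ^ n) ^ 2` is the
kernel of `Φ - q ^ n`. -/
def IsSemisimpleIn (R : MotivicData A) (φ : ∀ X, R.M X →ₗ[ℚ] R.M X) (F : ∀ X : 𝒱.Obj, X ⟶ X)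
    (q : ℕ) (X : 𝒱.Obj) (n : ℤ) : Prop :=
  ∀ r : R.M X, R.Deg n r → defect R φ F q X n (defect R φ F q X n r) = 0 →
    defect R φ F q X n r = 0

/-- Every element `r` of `R^n(X)` with `Φ r = q ^ n r` is the image of an element of `T^n(X)`. -/
def IsOnto {T R : MotivicData A} (reg : ∀ X, T.M X →ₗ[ℚ] R.M X) (φ : ∀ X, R.M X →ₗ[ℚ] R.M X)
    (F : ∀ X : 𝒱.Obj, X ⟶ X) (q : ℕ) (X : 𝒱.Obj) (n : ℤ) : Prop :=
  ∀ r : R.M X, R.Deg n r → defect R φ F q X n r = 0 → ∃ t : T.M X, T.Deg n t ∧ reg X t = r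

/-- The map `reg` from `T^n(X)` to `R^n(X)` is injective. -/
def IsInjective {T R : MotivicData A} (reg : ∀ X, T.M X →ₗ[ℚ] R.M X) (X : 𝒱.Obj) (n : ℤ) : Prop :=
  ∀ t : T.M X, T.Deg n t → reg X t = 0 → t = 0

/-- The conclusions for the product `V` of the `X i` with `i ∈ L` and of `Z`. -/
structure Conclusions (H : WeilTheoryData.{0, 0, 0} A K) (F : ∀ X : 𝒱.Obj, X ⟶ X) (q : ℕ)
    (χ : ℚ[X]) {ι : Type} (X : ι → 𝒱.Obj) (Z : 𝒱.Obj) {T R : MotivicData A}
    (φT : ∀ X, T.M X →ₗ[ℚ] T.M X) (φ : ∀ X, R.M X →ₗ[ℚ] R.M X)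
    (reg : ∀ X, T.M X →ₗ[ℚ] R.M X) (L : List ι) : Prop where
  tate : ∀ n : ℤ, IsOnto reg φ F q (productOf X Z L) n ∧ IsSemisimpleIn R φ F q (productOf X Z L) n ↔
    ∀ l : ℤ, n - dimension X L ≤ l → l ≤ n → IsOnto reg φ F q Z l ∧ IsSemisimpleIn R φ F q Z l
  beilinson : (∀ L, Nilpotence H (productOf X Z L)) → IsRoot T φT χ → ∀ n : ℤ,
    IsInjective reg (productOf X Z L) n ∧ IsOnto reg φ F q (productOf X Z L) n ∧
      IsSemisimpleIn R φ F q (productOf X Z L) n ↔
    ∀ l : ℤ, n - dimension X L ≤ l → l ≤ n → IsInjective reg Z l ∧ IsOnto reg φ F q Z l ∧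
      IsSemisimpleIn R φ F q Z l

end geometry

end Pool.Agent.U231.FR.R8
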