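import Pool.Agent.N876.CG.GenT
import Pool.Agent.W484.CK.Main
import Pool.Agent.U231.FR.R8Defs
import Pool.Agent.U231.FR.Crd

/-!
# Proof of `MP_81632f_ag.FermatFactors`

Adapted from the proofs of helper222 (`U222/SL`) and of `MP_81632f_ag.HyperplaneCoverings` (helper876, `N876/R816/Proof`).
-/

set_option autoImplicit false

open Finset Polynomial CategoryTheory AlgebraicGeometry

namespace Pool.Agent.U231.FR.R8

open Pool.Agent.H914 Pool.Agent.H914.VarClass Pool.Agent.H914.VarClass.Obj Pool.Agent.W492.BB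
  Pool.Agent.W484.CK Pool.Agent.U231.FF

theorem main (p : ℕ) [Fact p.Prime] (κ : Type) [Field κ] [Fintype κ] [CharP κ p] {ι : Type}
    (N s : ι → ℕ)
    {𝒱 : VarClass κ} (A : TheoryData.{0, 0, 0} 𝒱 ℚ) [IsChow A] {K : Type} [Field K]
    [IsAlgClosed K] [CharZero K] (H : WeilTheoryData.{0, 0, 0} A K) [IsWeil H] (τ : K →+* ℂ)
    (F : ∀ X : 𝒱.Obj, X ⟶ X) (X : ι → 𝒱.Obj) (Z : 𝒱.Obj) (χ : ℚ[X])
    (h : IsFermatSystem p N s H τ F X Z χ) (T R : MotivicData A)
    (φT : ∀ X, T.M X →ₗ[ℚ] T.M X) (hT : IsCycleTheory T φT F (Fintype.card κ))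
    (φ : ∀ X, R.M X →ₗ[ℚ] R.M X) (hR : IsMixedTheory H R φ χ)
    (reg : ∀ X, T.M X →ₗ[ℚ] R.M X) (hreg : IsRegulator T R φT φ reg) (L : List ι)
    (hL : L.Nodup) : Conclusions H F (Fintype.card κ) χ X Z φT φ reg L := by
  obtain ⟨⟨hprime, hne⟩, hstd, hfrob, hprod, hferm, hpol, halg, hχ0, hbase⟩ := h
  choose T₀ hT₀ hTtop hTS using hferm
  have htw : ∀ L : List ι, productOf X Z L = Pool.Agent.N876.CG.tw X Z L := by
    intro L
    induction L with
    | nil => rfl
    | cons i L ih => rw [productOf, Pool.Agent.N876.CG.tw, ih]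
  have hdim : ∀ L : List ι, dimension X L = Pool.Agent.N876.CG.dims X L := by
    intro L
    induction L with
    | nil => rfl
    | cons i L ih => rw [dimension, Pool.Agent.N876.CG.dims, ih]
  have hq0 : Fintype.card κ ≠ 0 := Fintype.card_ne_zero
  have hsys := Pool.Agent.U231.FR.cr_of (p := p) (χ := χ) τ hprime hne
    (isStandard_bridge hstd) (fun X => isFrobenius_bridge (hfrob X)) hprod T₀ hT₀ hTtop hTS
    (fun β hβ => halg _ ⟨β, hβ, rfl⟩) hbase
  have hFr : ∀ X, Pool.Agent.W484.CH.IsFrobenius A (F X) (Fintype.card κ) := hsys.frob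
  have hrel : ∀ (R : MotivicData A) (φ : ∀ X, R.M X →ₗ[ℚ] R.M X) (χ : ℚ[X]),
      IsMixedTheory H R φ χ → Pool.Agent.N876.CG.RelTheory
        (Pool.Agent.N876.CG.genT (toCorr R) φ F (Fintype.card κ)) φ F (Fintype.card κ) χ :=
    fun R φ χ hR => Pool.Agent.N876.CG.genT_rel (toCorr_isCorrTheory hR.motivic) hR.comm hq0 hFr
      hprod hsys.std (fun X n t ht => hR.root ht)
  have hnil' : ∀ (R : MotivicData A) (φ : ∀ X, R.M X →ₗ[ℚ] R.M X) (χ : ℚ[X]),
      IsMixedTheory H R φ χ → ∀ V, Pool.Agent.N876.CG.NilT H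
        (Pool.Agent.N876.CG.genT (toCorr R) φ F (Fintype.card κ)) V := by
    intro R φ χ hR V Γ hΓ h0
    refine ⟨1, ?_⟩
    rw [pow_one]
    exact LinearMap.ext fun r => hR.homological Γ hΓ h0 r
  -- invariant elements are generalized eigenvectors
  have hinv : ∀ (V : 𝒱.Obj) (n : ℤ) (r : R.M V), R.Deg n r →
      defect R φ F (Fintype.card κ) V n r = 0 →
      r ∈ (Pool.Agent.N876.CG.genT (toCorr R) φ F (Fintype.card κ)).gr V n := by
    intro V n r hr h0
    refine Pool.Agent.N876.CG.mem_genT.2 ⟨hr, 1, ?_⟩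
    rw [pow_one]
    exact h0
  -- the image of the regulator
  have himg : ∀ (V : 𝒱.Obj) (n : ℤ) (t : T.M V), T.Deg n t →
      defect R φ F (Fintype.card κ) V n (reg V t) = 0 := by
    intro V n t ht
    have h1 : defect R φ F (Fintype.card κ) V n (reg V t) =
        reg V (defect T φT F (Fintype.card κ) V n t) := by
      rw [defect, defect, map_sub, map_smul, hreg.corr, hreg.frob]
    rw [h1, hT.power ht, map_zero]
  have hS : ∀ (V : 𝒱.Obj) (n : ℤ), IsOnto reg φ F (Fintype.card κ) V n ∧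
      IsSemisimpleIn R φ F (Fintype.card κ) V n ↔
      ∀ r ∈ (Pool.Agent.N876.CG.genT (toCorr R) φ F (Fintype.card κ)).gr V n,
        ∃ t ∈ (toCorr T).gr V n, reg V t = r := by
    intro V n
    have hss := Pool.Agent.N876.CG.ss_iff (toCorr_isCorrTheory hR.motivic) hFr
      (fun X n t ht => hR.degree ht) V n
    constructor
    · rintro ⟨h1, h2⟩ r hr
      exact h1 r (Pool.Agent.N876.CG.mem_genT.1 hr).1 (hss.1 h2 r hr)
    · intro h0
      refine ⟨fun r hr hi => h0 r (hinv V n r hr hi), hss.2 fun r hr => ?_⟩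
      obtain ⟨t, ht, rfl⟩ := h0 r hr
      exact himg V n t ht
  have hnat : Pool.Agent.N876.CG.Nat' (toCorr T)
      (Pool.Agent.N876.CG.genT (toCorr R) φ F (Fintype.card κ)) reg :=
    ⟨fun {V n t} ht => hinv V n _ (hreg.mem ht) (himg V n t ht), hreg.corr⟩
  have hcorrT := toCorr_isCorrTheory hT.motivic
  have hcorrR : Pool.Agent.W484.CH.IsCorrTheory
      (Pool.Agent.N876.CG.genT (toCorr R) φ F (Fintype.card κ)) := (hrel R φ χ hR).corr
  have htate : ∀ n : ℤ, IsOnto reg φ F (Fintype.card κ) (productOf X Z L) n ∧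
      IsSemisimpleIn R φ F (Fintype.card κ) (productOf X Z L) n ↔
      ∀ l : ℤ, n - dimension X L ≤ l → l ≤ n → IsOnto reg φ F (Fintype.card κ) Z l ∧
        IsSemisimpleIn R φ F (Fintype.card κ) Z l := by
    intro n
    rw [hS]
    simp only [hS]
    rw [htw L, hdim L]
    exact hsys.induct hpol (fun V n =>
        ∀ r ∈ (Pool.Agent.N876.CG.genT (toCorr R) φ F (Fintype.card κ)).gr V n,
          ∃ t ∈ (toCorr T).gr V n, reg V t = r)
      (Pool.Agent.N876.CG.genT (toCorr R) φ F (Fintype.card κ)) φ χ hχ0 (fun ρ hρ => hρ)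
      (hrel R φ χ hR) (fun L => hnil' R φ χ hR _) (fun i V J _ deg D E h1 h2 n =>
        Pool.Agent.N876.CG.surj_deg h1 hcorrT hcorrR hnat h2 n) hL n
  refine ⟨htate, fun hnil hroot n => ?_⟩
  · have hinj : IsInjective reg (productOf X Z L) n ↔
        ∀ l : ℤ, n - dimension X L ≤ l → l ≤ n → IsInjective reg Z l := by
      rw [htw L, hdim L]
      exact hsys.induct hpol (fun V n => IsInjective reg V n) (toCorr T) φT χ hχ0 (fun ρ hρ => hρ)
        { corr := hcorrT
          comm := hT.comm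
          power := fun X n t ht => ⟨1, by
            rw [pow_one]
            exact hT.power ht⟩
          poly := fun X n t ht => hroot ht }
        (fun L => Pool.Agent.N876.CG.nilT_of hcorrT (by
          rw [← htw L]; exact nilpotence_bridge (hnil L)))
        (fun i V J _ deg D E h1 h2 n =>
          Pool.Agent.N876.CG.inj_deg h1 hcorrT hnat h2 n) hL n
    rw [hinj, htate n]
    exact ⟨fun ⟨h1, h2⟩ l hl1 hl2 => ⟨h1 l hl1 hl2, h2 l hl1 hl2⟩,
      fun h0 => ⟨fun l hl1 hl2 => (h0 l hl1 hl2).1, fun l hl1 hl2 => (h0 l hl1 hl2).2⟩⟩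

end Pool.Agent.U231.FR.R8
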