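import Pool.Agent.U231.FR.Base

/-!
# Finite generation of the cohomology of cycle complexes in negative weights: definitions
-/

set_option autoImplicit false

open Finset Polynomial CategoryTheory AlgebraicGeometry

namespace Pool.Agent.U231.FR.Fg

open Pool.Agent.H914 Pool.Agent.H914.VarClass Pool.Agent.H914.VarClass.Obj Pool.Agent.W492.BB
  Pool.Agent.W484.CK Pool.Agent.U231.FF Pool.Agent.U231.FR.Base

/-- The homomorphism `f` from an abelian group to a vector space over `ℚ` induces an isomorphism of
`G ⊗ ℚ` and the subspace `M'`. -/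
structure IsRationalization {G M : Type} [AddCommGroup G] [AddCommGroup M] [Module ℚ M]
    (f : G →+ M) (M' : Submodule ℚ M) : Prop where
  kernel : ∀ g, f g = 0 → IsOfFinAddOrder g
  span : Submodule.span ℚ (Set.range f) = M'

/-- The subgroup `ℓ ^ r G`. -/
def multiples (G : Type) [AddCommGroup G] (ℓ r : ℕ) : AddSubgroup G :=
  (nsmulAddMonoidHom (α := G) (ℓ ^ r)).range

/-- The groups `G / ℓ ^ r G`, `r ≥ 0`, are finite and their orders are bounded. -/
def IsBoundedMod (G : Type) [AddCommGroup G] (ℓ : ℕ) : Prop :=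
  ∃ B : ℕ, ∀ r : ℕ, (multiples G ℓ r).index ≠ 0 ∧ (multiples G ℓ r).index ≤ B

/-- The torsion subgroup of `G` is finite, and for some prime number `ℓ` the groups `G / ℓ ^ r G`
are finite of bounded order. -/
structure HasSmallTorsion (G : Type) [AddCommGroup G] : Prop where
  torsion : Set.Finite {g : G | IsOfFinAddOrder g}
  bounded : ∃ ℓ : ℕ, ℓ.Prime ∧ IsBoundedMod G ℓ

variable {κ : Type} [Field κ] {𝒱 : VarClass κ} {A : TheoryData.{0, 0, 0} 𝒱 ℚ}

/-- Abelian groups `G X n i`, for varieties `X` and integers `n`, `i`, with homomorphisms to the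
vector spaces of the theory `T (-i-2n)`. Intended: `G X n i = H^i((X × U)_et, ℤ^c(n))`, and `T m` is
the theory of the higher Chow groups `CH_n(X × U, m) ⊗ ℚ` of cycles of dimension `n + m`. -/
structure CycleGroups (T : ℤ → MotivicData A) where
  /-- the group `H^i(X, n)` -/
  G : 𝒱.Obj → ℤ → ℤ → Type
  [group : ∀ X n i, AddCommGroup (G X n i)]
  /-- the homomorphism to the group with rational coefficients -/
  rat : ∀ X n i, G X n i →+ (T (-i - 2 * n)).M X

attribute [instance] CycleGroups.group

/-- For `n < 0`: the group `G X n i` tensored with `ℚ` is `T^(dim X - n)(X)` for the theory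
`T (-i-2n)`, its torsion is finite, and its quotients modulo the powers of a prime number are finite
of bounded order. -/
structure IsCycleHomology {T : ℤ → MotivicData A} (C : CycleGroups T) : Prop where
  rational : ∀ (X : 𝒱.Obj) (n i : ℤ), n < 0 →
    IsRationalization (C.rat X n i) ((T (-i - 2 * n)).gr X (X.dim - n))
  small : ∀ (X : 𝒱.Obj) (n i : ℤ), n < 0 → HasSmallTorsion (C.G X n i)

/-- The group `G X n i` is finitely generated. -/
def IsFG {T : ℤ → MotivicData A} (C : CycleGroups T) (X : 𝒱.Obj) (n i : ℤ) : Prop :=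
  AddGroup.FG (C.G X n i)

/-- The statement of the question for `X × U`: the groups `G X n i` are finitely generated for all
`n < 0` and all `i`. -/
def AllFG {T : ℤ → MotivicData A} (C : CycleGroups T) (X : 𝒱.Obj) : Prop :=
  ∀ n i : ℤ, n < 0 → IsFG C X n i

/-- The conclusions for the product `V` of the `X i` with `i ∈ L` and of `Z`. -/
structure Conclusions {ι : Type} {T : ℤ → MotivicData A} (C : CycleGroups T) (X : ι → 𝒱.Obj)
    (Z : 𝒱.Obj) (L : List ι) : Prop where
  each : ∀ n i : ℤ, n < 0 → (IsFG C (productOf X Z L) n i ↔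
    ∀ j : ℕ, j ≤ dimension X L → IsFG C Z (n - j) (i + 2 * j))
  all : AllFG C (productOf X Z L) ↔ AllFG C Z
  finite : ∀ n i : ℤ, n < 0 → IsFG C (productOf X Z L) n i → Finite (C.G (productOf X Z L) n i)

end Pool.Agent.U231.FR.Fg
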