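import Pool.Agent.U231.FR.KtDefs
import Pool.Agent.U231.FR.FgDefs

/-!
# Finite generation of the K-groups of products with varieties of Fermat type: definitions
-/

set_option autoImplicit false

open Finset Polynomial CategoryTheory AlgebraicGeometry

namespace Pool.Agent.U231.FR.Ba

open Pool.Agent.H914 Pool.Agent.H914.VarClass Pool.Agent.H914.VarClass.Obj Pool.Agent.W492.BB
  Pool.Agent.W484.CK Pool.Agent.U231.FF Pool.Agent.U231.FR.Base Pool.Agent.U231.FR.Kt
  Pool.Agent.U231.FR.Fg

variable {κ : Type} [Field κ] {𝒱 : VarClass κ} {A : TheoryData.{0, 0, 0} 𝒱 ℚ}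

/-- The groups `G n X` (intended: the `K`-groups `K_n(X)`), tensored with `ℚ`, are the sums of the
spaces `T_n^r(X)` for all `r`, and for `n ≥ 1`, `n ≥ dim X` they have a finite torsion subgroup and
finite quotients modulo the powers of some prime number, of bounded order. -/
structure IsKGroups (G : ℕ → 𝒱.Obj → Type) [∀ n X, AddCommGroup (G n X)]
    (T : ℕ → MotivicData A) : Prop where
  rational : ∀ n, IsKTheory (G n) (T n)
  small : ∀ (n : ℕ) (X : 𝒱.Obj), 1 ≤ n → X.dim ≤ n → HasSmallTorsion (G n X)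

/-- `K_n(X) ⊗ ℚ` is a finite-dimensional vector space. -/
def IsRationallyFinite (G : ℕ → 𝒱.Obj → Type) [∀ n X, AddCommGroup (G n X)] (n : ℕ)
    (X : 𝒱.Obj) : Prop :=
  Module.Finite ℚ (Rational (G n X))

/-- The conclusions for the product `V` of the `X i` with `i ∈ L` and of `Z`. -/
structure Conclusions {ι : Type} (G : ℕ → 𝒱.Obj → Type) [∀ n X, AddCommGroup (G n X)]
    (X : ι → 𝒱.Obj) (Z : 𝒱.Obj) (L : List ι) : Prop where
  each : ∀ n : ℕ, 1 ≤ n → (productOf X Z L).dim ≤ n →
    (AddGroup.FG (G n (productOf X Z L)) ↔ AddGroup.FG (G n Z))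
  finite : ∀ n : ℕ, 1 ≤ n → (productOf X Z L).dim ≤ n →
    AddGroup.FG (G n (productOf X Z L)) → Finite (G n (productOf X Z L)) ∧ Finite (G n Z)
  rational : ∀ n : ℕ, IsRationallyFinite G n (productOf X Z L) ↔ IsRationallyFinite G n Z

end Pool.Agent.U231.FR.Ba
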