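import Pool.Agent.U231.FR.FgDefs

/-!
# Finitely generated abelian groups with finite torsion and bounded quotients
-/

set_option autoImplicit false

namespace Pool.Agent.U231.FR.Fg

theorem mem_multiples {G : Type} [AddCommGroup G] {ℓ r : ℕ} {g : G} :
    g ∈ multiples G ℓ r ↔ ∃ h : G, ℓ ^ r • h = g := by
  simp [multiples, AddMonoidHom.mem_range]

theorem multiples_succ_le (G : Type) [AddCommGroup G] (ℓ r : ℕ) :
    multiples G ℓ (r + 1) ≤ multiples G ℓ r := by
  intro g hg
  obtain ⟨h, rfl⟩ := mem_multiples.mp hg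
  exact mem_multiples.mpr ⟨ℓ • h, by rw [← mul_nsmul', pow_succ]⟩

/-- The chain of the subgroups `ℓ ^ r G` is stationary. -/
theorem exists_stable {G : Type} [AddCommGroup G] {ℓ : ℕ} (h : IsBoundedMod G ℓ) :
    ∃ r, multiples G ℓ r ≤ multiples G ℓ (r + 1) := by
  obtain ⟨B, hB⟩ := h
  by_contra hcon
  push Not at hcon
  have hlt : ∀ r, (multiples G ℓ r).index < (multiples G ℓ (r + 1)).index := by
    intro r
    have h1 := AddSubgroup.relIndex_mul_index (multiples_succ_le G ℓ r)
    have h2 := (hB r).1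
    have h3 := (hB (r + 1)).1
    have h4 : (multiples G ℓ (r + 1)).relIndex (multiples G ℓ r) ≠ 1 := by
      intro h5
      exact hcon r (AddSubgroup.relIndex_eq_one.mp h5)
    have h5 : (multiples G ℓ (r + 1)).relIndex (multiples G ℓ r) ≠ 0 := by
      intro h6
      rw [h6, zero_mul] at h1
      exact h3 h1.symm
    have h7 : 2 ≤ (multiples G ℓ (r + 1)).relIndex (multiples G ℓ r) := by omega
    have h8 : 0 < (multiples G ℓ r).index := Nat.pos_of_ne_zero h2
    nlinarith
  have hge : ∀ r, r ≤ (multiples G ℓ r).index := by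
    intro r
    induction r with
    | zero => exact Nat.zero_le _
    | succ r ih => exact lt_of_le_of_lt ih (hlt r)
  have := hge (B + 1)
  have := (hB (B + 1)).2
  omega

/-- A finitely generated group with bounded quotients modulo the powers of a prime number is a torsion
group. -/
theorem torsion_of_fg {G : Type} [AddCommGroup G] (hG : AddGroup.FG G) {ℓ : ℕ} (hℓ : ℓ.Prime)
    (h : IsBoundedMod G ℓ) (g : G) : IsOfFinAddOrder g := by
  obtain ⟨r, hr⟩ := exists_stable h
  have hfin : Module.Finite ℤ G := Module.Finite.iff_addGroup_fg.mpr hG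
  let N : Submodule ℤ G := LinearMap.range (LinearMap.lsmul ℤ G ((ℓ ^ r : ℕ) : ℤ))
  have hmem : ∀ x : G, x ∈ N ↔ ∃ y : G, ((ℓ ^ r : ℕ) : ℤ) • y = x := fun x => LinearMap.mem_range
  have hN : N.FG := IsNoetherian.noetherian N
  have hle : N ≤ Ideal.span {(ℓ : ℤ)} • N := by
    intro x hx
    obtain ⟨y, hy⟩ := (hmem x).mp hx
    have hx' : x ∈ multiples G ℓ r := mem_multiples.mpr ⟨y, by rw [← hy, natCast_zsmul]⟩
    obtain ⟨z, hz⟩ := mem_multiples.mp (hr hx')
    have h1 : x = (ℓ : ℤ) • (((ℓ ^ r : ℕ) : ℤ) • z) := by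
      rw [← hz, natCast_zsmul, natCast_zsmul, ← mul_nsmul', pow_succ']
    rw [h1]
    exact Submodule.smul_mem_smul (Ideal.mem_span_singleton_self _) ((hmem _).mpr ⟨z, rfl⟩)
  obtain ⟨c, hc1, hc2⟩ := Submodule.exists_sub_one_mem_and_smul_eq_zero_of_fg_of_le_smul _ _ hN hle
  have hc0 : c ≠ 0 := by
    rintro rfl
    rw [Ideal.mem_span_singleton] at hc1
    have : (ℓ : ℤ) ∣ 1 := by simpa using hc1
    have h2 := Int.isUnit_iff.mp (isUnit_of_dvd_one this)
    have := hℓ.two_le
    omega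
  have h1 : c • (((ℓ ^ r : ℕ) : ℤ) • g) = 0 := hc2 _ ((hmem _).mpr ⟨g, rfl⟩)
  have h2 : (c * ((ℓ ^ r : ℕ) : ℤ)) • g = 0 := by
    rw [mul_smul]
    exact h1
  refine isOfFinAddOrder_iff_zsmul_eq_zero.mpr ⟨c * ((ℓ ^ r : ℕ) : ℤ), ?_, h2⟩
  exact mul_ne_zero hc0 (by exact_mod_cast (pow_pos hℓ.pos r).ne')

/-- A torsion group with finite torsion is finite. -/
theorem finite_of_torsion {G : Type} [AddCommGroup G]
    (h : Set.Finite {g : G | IsOfFinAddOrder g}) (h' : ∀ g : G, IsOfFinAddOrder g) : Finite G := by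
  have : (Set.univ : Set G).Finite := h.subset fun g _ => h' g
  exact Set.finite_univ_iff.mp this

theorem fg_iff_torsion {G : Type} [AddCommGroup G] (h : HasSmallTorsion G) :
    AddGroup.FG G ↔ ∀ g : G, IsOfFinAddOrder g := by
  constructor
  · intro hG g
    obtain ⟨ℓ, hℓ, hb⟩ := h.bounded
    exact torsion_of_fg hG hℓ hb g
  · intro ht
    have := finite_of_torsion h.torsion ht
    infer_instance

theorem torsion_iff {G M : Type} [AddCommGroup G] [AddCommGroup M] [Module ℚ M] {f : G →+ M}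
    {M' : Submodule ℚ M} (h : IsRationalization f M') :
    (∀ g : G, IsOfFinAddOrder g) ↔ M' = ⊥ := by
  constructor
  · intro ht
    rw [← h.span, Submodule.span_eq_bot]
    rintro _ ⟨g, rfl⟩
    obtain ⟨n, hn, hg⟩ := isOfFinAddOrder_iff_nsmul_eq_zero.mp (ht g)
    have h1 : n • f g = 0 := by rw [← map_nsmul, hg, map_zero]
    have h2 : (n : ℚ) • f g = 0 := by rw [Nat.cast_smul_eq_nsmul]; exact h1
    exact (smul_eq_zero.mp h2).resolve_left (by exact_mod_cast hn.ne')
  · intro hM g
    refine h.kernel g ?_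
    have h1 : f g ∈ M' := h.span ▸ Submodule.subset_span ⟨g, rfl⟩
    rw [hM] at h1
    exact (Submodule.mem_bot ℚ).mp h1

theorem fg_iff_bot {G M : Type} [AddCommGroup G] [AddCommGroup M] [Module ℚ M] {f : G →+ M}
    {M' : Submodule ℚ M} (h : IsRationalization f M') (h' : HasSmallTorsion G) :
    AddGroup.FG G ↔ M' = ⊥ :=
  (fg_iff_torsion h').trans (torsion_iff h)

theorem finite_of_fg {G : Type} [AddCommGroup G] (h : HasSmallTorsion G) (hG : AddGroup.FG G) :
    Finite G :=
  finite_of_torsion h.torsion ((fg_iff_torsion h).mp hG)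

end Pool.Agent.U231.FR.Fg
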