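import Pool.Agent.U231.FR.Va
import Pool.Agent.U231.FR.FgGrp

/-!
# Finite generation in negative weights for products with varieties of Fermat type
-/

set_option autoImplicit false

open Finset Polynomial CategoryTheory AlgebraicGeometry

namespace Pool.Agent.U231.FR.Fg

open Pool.Agent.H914 Pool.Agent.H914.VarClass Pool.Agent.H914.VarClass.Obj Pool.Agent.W492.BB
  Pool.Agent.W484.CK Pool.Agent.U231.FF Pool.Agent.U231.FR.Base

section

variable {κ : Type} [Field κ] {𝒱 : VarClass κ} {A : TheoryData.{0, 0, 0} 𝒱 ℚ}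

theorem dim_productOf {ι : Type} (X : ι → 𝒱.Obj) (Z : 𝒱.Obj) (L : List ι) :
    (productOf X Z L).dim = dimension X L + Z.dim := by
  induction L with
  | nil => simp [productOf, dimension]
  | cons i L ih => rw [productOf, dimension, Obj.dim_prod, ih, add_assoc]

theorem isFG_iff {T : ℤ → MotivicData A} {C : CycleGroups T} (hC : IsCycleHomology C)
    (X : 𝒱.Obj) {n i : ℤ} (hn : n < 0) :
    IsFG C X n i ↔ Va.Vanishes (T (-i - 2 * n)) X (X.dim - n) := by
  rw [IsFG, fg_iff_bot (hC.rational X n i hn) (hC.small X n i hn), Submodule.eq_bot_iff]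
  rfl

end

theorem main (p : ℕ) [Fact p.Prime] (κ : Type) [Field κ] [Fintype κ] [CharP κ p] {ι : Type}
    (N s : ι → ℕ) {𝒱 : VarClass κ} (A : TheoryData.{0, 0, 0} 𝒱 ℚ) [IsChow A] {K : Type} [Field K]
    [IsAlgClosed K] [CharZero K] (H : WeilTheoryData.{0, 0, 0} A K) [IsWeil H] (τ : K →+* ℂ)
    (F : ∀ X : 𝒱.Obj, X ⟶ X) (X : ι → 𝒱.Obj) (Z : 𝒱.Obj) (χ : ℚ[X])
    (h : IsFermatSystem p N s H τ F X Z χ) (hnil : ∀ L, Nilpotence H (productOf X Z L))
    (T : ℤ → MotivicData A) (φ : ∀ m X, (T m).M X →ₗ[ℚ] (T m).M X)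
    (hT : ∀ m, IsCycleTheory (T m) (φ m) F (Fintype.card κ)) (hT0 : ∀ m, IsRoot (T m) (φ m) χ)
    (C : CycleGroups T) (hC : IsCycleHomology C)
    (L : List ι) (hL : L.Nodup) : Conclusions C X Z L := by
  have hv : ∀ m n : ℤ, Va.Vanishes (T m) (productOf X Z L) n ↔
      ∀ l : ℤ, n - dimension X L ≤ l → l ≤ n → Va.Vanishes (T m) Z l := fun m =>
    (Va.main p κ N s A H τ F X Z χ h hnil (T m) (φ m) (hT m) (hT0 m) L hL).vanishes
  have heach : ∀ n i : ℤ, n < 0 → (IsFG C (productOf X Z L) n i ↔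
      ∀ j : ℕ, j ≤ dimension X L → IsFG C Z (n - j) (i + 2 * j)) := by
    intro n i hn
    rw [isFG_iff hC _ hn, hv, dim_productOf]
    constructor
    · intro hl j hj
      rw [isFG_iff hC _ (by omega : n - (j : ℤ) < 0)]
      have h1 : -(i + 2 * (j : ℤ)) - 2 * (n - j) = -i - 2 * n := by ring
      rw [h1]
      refine hl _ ?_ ?_
      · push_cast; omega
      · push_cast; omega
    · intro hj l hl1 hl2
      obtain ⟨j, hj'⟩ : ∃ j : ℕ, (j : ℤ) = l - Z.dim + n :=
        ⟨(l - Z.dim + n).toNat, Int.toNat_of_nonneg (by push_cast at hl1; omega)⟩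
      have h1 := hj j (by push_cast at hl2; omega)
      rw [isFG_iff hC _ (by omega : n - (j : ℤ) < 0)] at h1
      have h2 : -(i + 2 * (j : ℤ)) - 2 * (n - j) = -i - 2 * n := by ring
      have h3 : (Z.dim : ℤ) - (n - j) = l := by omega
      rw [h2, h3] at h1
      exact h1
  refine ⟨heach, ⟨fun hV n i hn => ?_, fun hZ n i hn => ?_⟩, fun n i hn hfg => ?_⟩
  · have h1 := (heach n i hn).mp (hV n i hn) 0 (Nat.zero_le _)
    have h2 : n - ((0 : ℕ) : ℤ) = n := by simp
    have h3 : i + 2 * ((0 : ℕ) : ℤ) = i := by simp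
    rw [h2, h3] at h1
    exact h1
  · exact (heach n i hn).mpr fun j _ => hZ _ _ (by omega)
  · exact finite_of_fg (hC.small _ n i hn) hfg

end Pool.Agent.U231.FR.Fg
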