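import Pool.Agent.U231.FR.Kt
import Pool.Agent.U231.FR.Fg
import Pool.Agent.U231.FR.BaDefs

/-!
# Finite generation of the K-groups of products with varieties of Fermat type
-/

set_option autoImplicit false

open Finset Polynomial CategoryTheory AlgebraicGeometry

namespace Pool.Agent.U231.FR.Ba

open Pool.Agent.H914 Pool.Agent.H914.VarClass Pool.Agent.H914.VarClass.Obj Pool.Agent.W492.BB
  Pool.Agent.W484.CK Pool.Agent.U231.FF Pool.Agent.U231.FR.Base Pool.Agent.U231.FR.Kt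
  Pool.Agent.U231.FR.Fg

theorem finite_iff {V W : Type} [AddCommGroup V] [Module ℚ V] [AddCommGroup W] [Module ℚ W]
    {b : ℕ} (hb : 0 < b) (e : V ≃+ (Fin b → W)) : Module.Finite ℚ V ↔ Module.Finite ℚ W := by
  let f : V →ₗ[ℚ] (Fin b → W) := e.toAddMonoidHom.toRatLinearMap
  have hf : Function.Bijective f := e.bijective
  let e' : V ≃ₗ[ℚ] (Fin b → W) := LinearEquiv.ofBijective f hf
  constructor
  · intro h
    have h1 : Module.Finite ℚ (Fin b → W) := Module.Finite.equiv e'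
    exact Module.Finite.of_surjective (LinearMap.proj (R := ℚ) (φ := fun _ : Fin b => W) ⟨0, hb⟩)
      (fun w => ⟨fun _ => w, rfl⟩)
  · intro h
    exact Module.Finite.equiv e'.symm

theorem main (p : ℕ) [Fact p.Prime] (κ : Type) [Field κ] [Fintype κ] [CharP κ p] {ι : Type}
    (N s : ι → ℕ) {𝒱 : VarClass κ} (A : TheoryData.{0, 0, 0} 𝒱 ℚ) [IsChow A] {K : Type} [Field K]
    [IsAlgClosed K] [CharZero K] (H : WeilTheoryData.{0, 0, 0} A K) [IsWeil H] (τ : K →+* ℂ)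
    (F : ∀ X : 𝒱.Obj, X ⟶ X) (X : ι → 𝒱.Obj) (Z : 𝒱.Obj) (χ : ℚ[X])
    (h : IsFermatSystem p N s H τ F X Z χ) (hnil : ∀ L, Nilpotence H (productOf X Z L))
    (T : ℕ → MotivicData A) (φ : ∀ n X, (T n).M X →ₗ[ℚ] (T n).M X)
    (hT : ∀ n, IsCycleTheory (T n) (φ n) F (Fintype.card κ)) (hT0 : ∀ n, IsRoot (T n) (φ n) χ)
    (G : ℕ → 𝒱.Obj → Type) [∀ n X, AddCommGroup (G n X)] (hG : IsKGroups G T)
    (L : List ι) (hL : L.Nodup) : Conclusions G X Z L := by
  have hk : ∀ n, Kt.Conclusions H X Z (G n) L := fun n =>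
    Kt.main p κ N s A H τ F X Z χ h hnil (T n) (φ n) (hT n) (hT0 n) (G n) (hG.rational n) L hL
  have hdim : Z.dim ≤ (productOf X Z L).dim := by
    rw [dim_productOf]
    omega
  have hiff : ∀ n : ℕ, 1 ≤ n → (productOf X Z L).dim ≤ n →
      (AddGroup.FG (G n (productOf X Z L)) ↔ AddGroup.FG (G n Z)) := fun n hn hd => by
    rw [fg_iff_torsion (hG.small n _ hn hd), fg_iff_torsion (hG.small n _ hn (hdim.trans hd))]
    exact (hk n).torsion
  refine ⟨hiff, fun n hn hd hfg => ⟨finite_of_fg (hG.small n _ hn hd) hfg,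
    finite_of_fg (hG.small n _ hn (hdim.trans hd)) ((hiff n hn hd).mp hfg)⟩, fun n => ?_⟩
  obtain ⟨e⟩ := (hk n).sum
  exact finite_iff (hk n).pos e

theorem isRoot_id {κ : Type} [Field κ] {𝒱 : VarClass κ} {A : TheoryData.{0, 0, 0} 𝒱 ℚ}
    (T : MotivicData A) : IsRoot T (fun _ => LinearMap.id) (Polynomial.X - 1) := by
  intro X n r _
  simp

end Pool.Agent.U231.FR.Ba
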