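import Pool.Agent.U231.FR.Base

/-!
# K-groups of products with varieties of Fermat type: definitions
-/

set_option autoImplicit false

open Finset Polynomial CategoryTheory AlgebraicGeometry

namespace Pool.Agent.U231.FR.Kt

open Pool.Agent.H914 Pool.Agent.H914.VarClass Pool.Agent.H914.VarClass.Obj Pool.Agent.W492.BB
  Pool.Agent.W484.CK Pool.Agent.U231.FF Pool.Agent.U231.FR.Base

/-- The group `G` with rational coefficients. -/
abbrev Rational (G : Type) [AddCommGroup G] : Type := TensorProduct ℤ ℚ G

variable {κ : Type} [Field κ] {𝒱 : VarClass κ} {A : TheoryData.{0, 0, 0} 𝒱 ℚ} {K : Type} [Field K]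

/-- The groups `G X` with rational coefficients are isomorphic to the sums of the spaces `T^n(X)` for
all integers `n` (almost all of these are zero, so the sum is the product). -/
def IsKTheory (G : 𝒱.Obj → Type) [∀ X, AddCommGroup (G X)] (T : MotivicData A) : Prop :=
  ∀ X : 𝒱.Obj, Nonempty (Rational (G X) ≃+ ∀ n : ℤ, T.gr X n)

/-- The number of the linearly independent classes of cycles on `X`. -/
noncomputable def cycleNumber (H : WeilTheoryData.{0, 0, 0} A K) (X : 𝒱.Obj) : ℕ :=
  Module.finrank K (cycleSpan H X)

/-- The product of the numbers of the linearly independent classes of cycles on the `X i`. -/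
noncomputable def cycleNumbers {ι : Type} (H : WeilTheoryData.{0, 0, 0} A K) (X : ι → 𝒱.Obj)
    (L : List ι) : ℕ :=
  (L.map fun i => cycleNumber H (X i)).prod

/-- The conclusions for the product `V` of the `X i` with `i ∈ L` and of `Z`. -/
structure Conclusions {ι : Type} (H : WeilTheoryData.{0, 0, 0} A K) (X : ι → 𝒱.Obj) (Z : 𝒱.Obj)
    (G : 𝒱.Obj → Type) [∀ X, AddCommGroup (G X)] (L : List ι) : Prop where
  torsion : IsAddTorsion (G (productOf X Z L)) ↔ IsAddTorsion (G Z)
  pos : 0 < cycleNumbers H X L
  sum : Nonempty (Rational (G (productOf X Z L)) ≃+ (Fin (cycleNumbers H X L) → Rational (G Z)))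

end Pool.Agent.U231.FR.Kt
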