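import Pool.Agent.N876.CG.Tower
import Pool.Agent.W484.CK.Main
import Pool.Agent.U231.FR.KtDefs
import Pool.Agent.U231.FR.Pa

/-!
# K-groups of products with varieties of Fermat type
-/

set_option autoImplicit false

open Finset Polynomial CategoryTheory AlgebraicGeometry

namespace Pool.Agent.U231.FR.Kt

open Pool.Agent.H914 Pool.Agent.H914.VarClass Pool.Agent.H914.VarClass.Obj Pool.Agent.W492.BB
  Pool.Agent.W484.CK Pool.Agent.U231.FF Pool.Agent.U231.FR.Base

/-- a group is a torsion group iff it is zero with rational coefficients -/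
theorem torsion_iff (G : Type) [AddCommGroup G] :
    IsAddTorsion G ↔ ∀ x : Rational G, x = 0 := by
  constructor
  · intro h x
    induction x using TensorProduct.induction_on with
    | zero => rfl
    | tmul a g =>
      obtain ⟨n, hn, hng⟩ := isOfFinAddOrder_iff_nsmul_eq_zero.1 (h g)
      have hn' : (n : ℚ) ≠ 0 := by exact_mod_cast hn.ne'
      have h1 : a = (n : ℤ) • (a / n) := by
        rw [zsmul_eq_mul]
        push_cast
        field_simp
      rw [h1, TensorProduct.smul_tmul, natCast_zsmul, hng, TensorProduct.tmul_zero]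
    | add x y hx hy => rw [hx, hy, add_zero]
  · intro h g
    have h1 : (1 : ℚ) ⊗ₜ[ℤ] g = (0 : TensorProduct ℤ ℚ G) := h _
    by_contra hcon
    -- the subgroup generated by g is free, and ℚ is flat
    have hinj : Function.Injective (LinearMap.toSpanSingleton ℤ G g) := by
      rw [injective_iff_map_eq_zero]
      intro n hn
      by_contra hn0
      apply hcon
      rw [isOfFinAddOrder_iff_zsmul_eq_zero]
      exact ⟨n, hn0, by simpa using hn⟩
    have hfl : Function.Injective ((LinearMap.toSpanSingleton ℤ G g).lTensor ℚ) :=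
      Module.Flat.lTensor_preserves_injective_linearMap _ hinj
    have h2 : (LinearMap.toSpanSingleton ℤ G g).lTensor ℚ ((1 : ℚ) ⊗ₜ (1 : ℤ)) = 0 := by
      rw [LinearMap.lTensor_tmul, LinearMap.toSpanSingleton_apply, one_smul]
      exact h1
    have h3 := (injective_iff_map_eq_zero _).1 hfl _ h2
    have h4 := congrArg (TensorProduct.rid ℤ ℚ) h3
    rw [TensorProduct.rid_tmul, map_zero, one_smul] at h4
    exact one_ne_zero h4

/-- families of elements with equivalent index sets -/
def addCongrLeft {a b M : Type} [AddCommGroup M] (e : a ≃ b) : (a → M) ≃+ (b → M) where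
  toFun x y := x (e.symm y)
  invFun x y := x (e y)
  left_inv x := by funext y; simp
  right_inv x := by funext y; simp
  map_add' _ _ := rfl

/-- one step: the sums of the spaces of a product -/
theorem sum_step {κ : Type} [Field κ] {𝒱 : VarClass κ} {A : TheoryData.{0, 0, 0} 𝒱 ℚ} [IsChow A]
    {T : MotivicData A} (hT : IsMotivic T) {B V : 𝒱.Obj} {J : Type} [Fintype J] {deg : J → ℕ}
    {D E : J → A.A B} (h : Pool.Agent.W484.CH.IsDual B V deg D E)
    (hK : Pool.Agent.W484.CH.HasKunneth (toCorr T) B V deg D) :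
    Nonempty ((∀ n : ℤ, T.gr (B.prod V) n) ≃+ (J → ∀ n : ℤ, T.gr V n)) := by
  have h1 : ∀ n : ℤ, Nonempty ((T.gr (B.prod V) n) ≃+ (∀ j, T.gr V (n - deg j))) := by
    intro n
    obtain ⟨e, -⟩ := Pool.Agent.N876.CG.kun_equiv (toCorr_isCorrTheory hT) h hK n
      (fun j => n - deg j) (fun j => rfl)
    exact ⟨e.symm.toAddEquiv⟩
  let e1 : (∀ n : ℤ, T.gr (B.prod V) n) ≃+ (∀ n : ℤ, ∀ j, T.gr V (n - deg j)) :=
    AddEquiv.piCongrRight fun n => Classical.choice (h1 n)
  let e2 : (∀ n : ℤ, ∀ j, T.gr V (n - deg j)) ≃+ (∀ j, ∀ n : ℤ, T.gr V (n - deg j)) :=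
    { toFun := fun x j n => x n j
      invFun := fun y n j => y j n
      left_inv := fun x => rfl
      right_inv := fun y => rfl
      map_add' := fun x y => rfl }
  let e3 : (∀ j, ∀ n : ℤ, T.gr V (n - deg j)) ≃+ (J → ∀ n : ℤ, T.gr V n) :=
    AddEquiv.piCongrRight fun j =>
      (LinearEquiv.piCongrLeft' ℚ (fun n : ℤ => T.gr V n)
        (Equiv.subRight (deg j : ℤ)).symm).symm.toAddEquiv
  exact ⟨(e1.trans e2).trans e3⟩

theorem main (p : ℕ) [Fact p.Prime] (κ : Type) [Field κ] [Fintype κ] [CharP κ p] {ι : Type}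
    (N s : ι → ℕ) {𝒱 : VarClass κ} (A : TheoryData.{0, 0, 0} 𝒱 ℚ) [IsChow A] {K : Type} [Field K]
    [IsAlgClosed K] [CharZero K] (H : WeilTheoryData.{0, 0, 0} A K) [IsWeil H] (τ : K →+* ℂ)
    (F : ∀ X : 𝒱.Obj, X ⟶ X) (X : ι → 𝒱.Obj) (Z : 𝒱.Obj) (χ : ℚ[X])
    (h : IsFermatSystem p N s H τ F X Z χ) (hnil : ∀ L, Nilpotence H (productOf X Z L))
    (T : MotivicData A) (φ : ∀ X, T.M X →ₗ[ℚ] T.M X)
    (hT : IsCycleTheory T φ F (Fintype.card κ)) (hT0 : IsRoot T φ χ)
    (G : 𝒱.Obj → Type) [∀ X, AddCommGroup (G X)] (hG : IsKTheory G T)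
    (L : List ι) (hL : L.Nodup) : Conclusions H X Z G L := by
  obtain ⟨⟨hprime, hne⟩, hstd, hfrob, hprod, hferm, hpol, halg, hχ0, hbase⟩ := h
  choose T₀ hT₀ hTtop hTS using hferm
  have hsys := Pool.Agent.U231.FR.cr_of (p := p) (χ := χ) τ hprime hne
    (isStandard_bridge hstd) (fun X => isFrobenius_bridge (hfrob X)) hprod T₀ hT₀ hTtop hTS
    (fun β hβ => halg _ ⟨β, hβ, rfl⟩) hbase
  have hrel : Pool.Agent.N876.CG.RelTheory (toCorr T) φ F (Fintype.card κ) χ :=
    { corr := toCorr_isCorrTheory hT.motivic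
      comm := hT.comm
      power := fun X n t ht => ⟨1, by
        rw [pow_one]
        exact hT.power ht⟩
      poly := fun X n t ht => hT0 ht }
  have hnil' : ∀ L, Pool.Agent.N876.CG.NilT H (toCorr T) (Pool.Agent.N876.CG.tw X Z L) :=
    fun L => Pool.Agent.N876.CG.nilT_of (toCorr_isCorrTheory hT.motivic) (by
      rw [← Pa.tw_eq]
      exact nilpotence_bridge (hnil L))
  have hstep : ∀ (i : ι) (L : List ι), i ∉ L → L.Nodup → 0 < cycleNumber H (X i) ∧
      Nonempty ((∀ n : ℤ, T.gr ((X i).prod (productOf X Z L)) n) ≃+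
        (Fin (cycleNumber H (X i)) → ∀ n : ℤ, T.gr (productOf X Z L) n)) := by
    intro i L hi hL
    obtain ⟨J, hJ, deg, D, E, h1, h2, h3⟩ := hsys.step hi hL
    have hcard : cycleNumber H (X i) = Fintype.card J := by
      rw [← finrank_span_eq_card (Pool.Agent.N876.CG.linearIndependent_of_dual hsys.std h1)]
      unfold cycleNumber
      have h5 : cycleSpan H (X i) = Submodule.span K (Set.range fun j => H.cl (D j)) := ?_
      · rw [h5]
      apply le_antisymm
      · unfold cycleSpan
        refine Submodule.span_le.2 ?_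
        rintro c ⟨n, z, hz, rfl⟩
        have h4 : H.cl z ∈ Pool.Agent.N876.CG.AK H (X i) n := Submodule.subset_span ⟨z, hz, rfl⟩
        refine (Submodule.span_mono ?_) (h2 n h4)
        rintro c ⟨j, -, rfl⟩
        exact ⟨j, rfl⟩
      · refine Submodule.span_le.2 ?_
        rintro c ⟨j, rfl⟩
        exact Submodule.subset_span ⟨deg j, D j, h1.left j, rfl⟩
    obtain ⟨j, -⟩ := Pool.Agent.N876.CG.exists_deg_big (hpol i) h2 (Nat.zero_le (X i).dim)
    have hpos : 0 < Fintype.card J := Fintype.card_pos_iff.2 ⟨j⟩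
    obtain ⟨e1⟩ := sum_step hT.motivic h1 (h3 _ φ χ hχ0 (fun ρ hρ => hρ) hrel (hnil' (i :: L)))
    rw [hcard, Pa.tw_eq]
    exact ⟨hpos, ⟨e1.trans (addCongrLeft (Fintype.equivFin J))⟩⟩
  have hpos : 0 < cycleNumbers H X L := by
    unfold cycleNumbers
    refine List.prod_pos fun a ha => ?_
    obtain ⟨i, -, rfl⟩ := List.mem_map.1 ha
    exact (hstep i [] (by simp) List.nodup_nil).1
  have hsum : ∀ L : List ι, L.Nodup →
      Nonempty (Rational (G (productOf X Z L)) ≃+
        (Fin (cycleNumbers H X L) → Rational (G Z))) := by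
    intro L hL
    induction L with
    | nil =>
      exact ⟨(AddEquiv.piUnique (fun _ : Fin 1 => Rational (G Z))).symm⟩
    | cons i L ih =>
      rw [List.nodup_cons] at hL
      obtain ⟨e0⟩ := ih hL.2
      obtain ⟨-, ⟨e1⟩⟩ := hstep i L hL.1 hL.2
      obtain ⟨a1⟩ := hG ((X i).prod (productOf X Z L))
      obtain ⟨a2⟩ := hG (productOf X Z L)
      let e2 : (Fin (cycleNumber H (X i)) → ∀ n : ℤ, T.gr (productOf X Z L) n) ≃+
          (Fin (cycleNumber H (X i)) → Fin (cycleNumbers H X L) → Rational (G Z)) :=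
        AddEquiv.piCongrRight fun _ => a2.symm.trans e0
      let e3 : (Fin (cycleNumber H (X i)) → Fin (cycleNumbers H X L) → Rational (G Z)) ≃+
          (Fin (cycleNumber H (X i)) × Fin (cycleNumbers H X L) → Rational (G Z)) :=
        { toFun := fun x y => x y.1 y.2
          invFun := fun x a b => x (a, b)
          left_inv := fun x => rfl
          right_inv := fun x => rfl
          map_add' := fun x y => rfl }
      let e4 : (Fin (cycleNumber H (X i)) × Fin (cycleNumbers H X L) → Rational (G Z)) ≃+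
          (Fin (cycleNumbers H X (i :: L)) → Rational (G Z)) :=
        addCongrLeft (finProdFinEquiv.trans
          (finCongr (by rw [cycleNumbers, cycleNumbers, List.map_cons, List.prod_cons])))
      exact ⟨(((a1.trans e1).trans e2).trans e3).trans e4⟩
  obtain ⟨e⟩ := hsum L hL
  refine ⟨?_, hpos, ⟨e⟩⟩
  rw [torsion_iff, torsion_iff]
  constructor
  · intro h1 x
    have h2 : e.symm (fun _ => x) = 0 := h1 _
    have h3 := congrArg e h2
    rw [AddEquiv.apply_symm_apply, map_zero] at h3
    exact congrFun h3 ⟨0, hpos⟩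
  · intro h1 x
    apply e.injective
    rw [map_zero]
    funext j
    exact h1 _

end Pool.Agent.U231.FR.Kt
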