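import Pool.Agent.W484.CK.NCTate
import Pool.Agent.U231.FR.Base

/-!
# Noncommutative motives and varieties of Fermat type: definitions
-/

set_option autoImplicit false

open Finset Polynomial CategoryTheory AlgebraicGeometry

namespace Pool.Agent.U231.FR.Nc

open Pool.Agent.H914 Pool.Agent.H914.VarClass Pool.Agent.H914.VarClass.Obj Pool.Agent.W492.BB
  Pool.Agent.W484.CK Pool.Agent.U231.FF Pool.Agent.U231.FR.Base

variable {κ : Type} [Field κ] {𝒱 : VarClass κ} {A : TheoryData.{0, 0, 0} 𝒱 ℚ} {K : Type} [Field K]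

/-- `F` is the Frobenius endomorphism of the varieties over `κ`, the varieties `X i` are of Fermat
type of different prime degrees `N i`, and the images under `τ` of the eigenvalues of the
Frobenius on the cohomology of `Z` satisfy `IsSmallBase`. -/
structure IsFermatBase [Fintype κ] {ι : Type} (p : ℕ) (N s : ι → ℕ)
    (H : WeilTheoryData.{0, 0, 0} A K) (τ : K →+* ℂ) (F : ∀ X : 𝒱.Obj, X ⟶ X) (X : ι → 𝒱.Obj)
    (Z : 𝒱.Obj) : Prop where
  primes : AreDifferentPrimes N
  standard : IsStandard H
  frobenius : ∀ X, IsFrobenius A (F X) (Fintype.card κ)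
  product : ∀ X Y, F (X.prod Y) = prodMap (F X) (F Y)
  fermat : ∀ i, IsFermatType p (N i) (s i) H (F (X i)) τ
  polarized : ∀ i, IsPolarized H (X i)
  base : IsSmallBase p N s (eigenvaluesOf (H.pull (F Z)) τ)

/-- The self-correspondence `1 × ⋯ × 1 × e` of `X i₁ × (X i₂ × (⋯ × Z))`, where `e` is a
self-correspondence of `Z`. -/
noncomputable def relativeOf {ι : Type} (X : ι → 𝒱.Obj) {Z : 𝒱.Obj} (e : A.A (Z.prod Z)) :
    ∀ L : List ι, A.A ((productOf X Z L).prod (productOf X Z L))
  | [] => e
  | i :: L => relative A (X i) (relativeOf X e L)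

end Pool.Agent.U231.FR.Nc
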