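import Pool.Agent.W484.CK.NCTateMain

/-!
# Tensor products of noncommutative motives with a variety: composition
-/

set_option autoImplicit false
set_option linter.unusedSectionVars false

open CategoryTheory AlgebraicGeometry

universe u v w

namespace Pool.Agent.U231.FR.Nc

open Pool.Agent.H914 Pool.Agent.H914.VarClass Pool.Agent.H914.VarClass.Obj
  Pool.Agent.W492.BB Pool.Agent.W550.Corr Pool.Agent.W484.CK

variable {k : Type u} [Field k] {𝒱 : VarClass k}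

section

variable {F : Type w} [Field F] {δ : ℤ} (T : TheoryData.{u, v, w} 𝒱 F) [hT : IsTheory T δ]
  [hI : HasIso T] {A Z : 𝒱.Obj}

/-- the diagonal `(a, (z, w)) ↦ ((a, z), (a, w))` -/
noncomputable def dl (A Z : 𝒱.Obj) : A.prod (Z.prod Z) ⟶ (A.prod Z).prod (A.prod Z) :=
  Obj.lift (prodMap (𝟙 A) (fst Z Z)) (prodMap (𝟙 A) (snd Z Z))

/-- `((a, (z, z')), (b, w)) ↦ (z, ((a, z'), (b, w)))` -/
noncomputable def i1 (A Z : 𝒱.Obj) :
    (A.prod (Z.prod Z)).prod (A.prod Z) ⟶ Z.prod ((A.prod Z).prod (A.prod Z)) :=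
  Obj.lift (fst (A.prod (Z.prod Z)) (A.prod Z) ≫ snd A (Z.prod Z) ≫ fst Z Z)
    (prodMap (prodMap (𝟙 A) (snd Z Z)) (𝟙 (A.prod Z)))

/-- the inverse -/
noncomputable def i2 (A Z : 𝒱.Obj) :
    Z.prod ((A.prod Z).prod (A.prod Z)) ⟶ (A.prod (Z.prod Z)).prod (A.prod Z) :=
  Obj.lift (Obj.lift (snd Z ((A.prod Z).prod (A.prod Z)) ≫ fst (A.prod Z) (A.prod Z) ≫ fst A Z)
    (Obj.lift (fst Z ((A.prod Z).prod (A.prod Z)))
      (snd Z ((A.prod Z).prod (A.prod Z)) ≫ fst (A.prod Z) (A.prod Z) ≫ snd A Z)))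
    (snd Z ((A.prod Z).prod (A.prod Z)) ≫ snd (A.prod Z) (A.prod Z))

theorem i1_i2 : i1 A Z ≫ i2 A Z = 𝟙 _ := by
  apply prod_ext
  · apply prod_ext
    · simp [i1, i2, comp_lift]
    · apply prod_ext <;> simp [i1, i2, comp_lift]
  · simp [i1, i2, comp_lift]

theorem i2_i1 : i2 A Z ≫ i1 A Z = 𝟙 _ := by
  apply prod_ext
  · simp [i1, i2, comp_lift]
  · apply prod_ext
    · apply prod_ext <;> simp [i1, i2, comp_lift]
    · simp [i1, i2, comp_lift]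

/-- `(a, ((z, z'), w)) ↦ (z, (a, (z', w)))` -/
noncomputable def m1 (A Z : 𝒱.Obj) : A.prod ((Z.prod Z).prod Z) ⟶ Z.prod (A.prod (Z.prod Z)) :=
  Obj.lift (snd A ((Z.prod Z).prod Z) ≫ fst (Z.prod Z) Z ≫ fst Z Z)
    (prodMap (𝟙 A) (t23 Z Z Z))

/-- the inverse -/
noncomputable def m2 (A Z : 𝒱.Obj) : Z.prod (A.prod (Z.prod Z)) ⟶ A.prod ((Z.prod Z).prod Z) :=
  Obj.lift (snd Z (A.prod (Z.prod Z)) ≫ fst A (Z.prod Z))
    (Obj.lift (Obj.lift (fst Z (A.prod (Z.prod Z)))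
        (snd Z (A.prod (Z.prod Z)) ≫ snd A (Z.prod Z) ≫ fst Z Z))
      (snd Z (A.prod (Z.prod Z)) ≫ snd A (Z.prod Z) ≫ snd Z Z))

theorem m1_m2 : m1 A Z ≫ m2 A Z = 𝟙 _ := by
  apply prod_ext
  · simp [m1, m2, comp_lift]
  · apply prod_ext
    · apply prod_ext <;> simp [m1, m2, t23, comp_lift]
    · simp [m1, m2, t23, comp_lift]

theorem m2_m1 : m2 A Z ≫ m1 A Z = 𝟙 _ := by
  apply prod_ext
  · simp [m1, m2, comp_lift]
  · apply prod_ext
    · simp [m1, m2, comp_lift]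
    · apply prod_ext <;> simp [m1, m2, t23, comp_lift]

/-- the correspondence `1 × e` -/
noncomputable def rel' (A : 𝒱.Obj) (e : T.A (Z.prod Z)) : T.A ((A.prod Z).prod (A.prod Z)) :=
  T.push (dl A Z) (T.pull (snd A (Z.prod Z)) e)

include hT hI in
theorem pull_dl (y : T.A (A.prod (Z.prod Z))) :
    T.pull (prodMap (prodMap (𝟙 A) (snd Z Z)) (𝟙 (A.prod Z))) (T.push (dl A Z) y) =
      T.push (prodMap (𝟙 Z) (dl A Z) ≫ i2 A Z) (T.pull (snd Z (A.prod (Z.prod Z))) y) := by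
  have e1 : prodMap (prodMap (𝟙 A) (snd Z Z)) (𝟙 (A.prod Z)) =
      i1 A Z ≫ snd Z ((A.prod Z).prod (A.prod Z)) := by
    simp [i1]
  rw [e1, T.pull_comp, T.base_snd, pull_iso T (i1 A Z) (i2 A Z) i1_i2 i2_i1, ← T.push_comp]

include hT hI in
theorem rel_comp (e e' : T.A (Z.prod Z)) :
    T.comp (rel' T A e) (rel' T A e') = rel' T A (T.comp e e') := by
  have e1 : prodMap (dl A Z) (𝟙 (A.prod Z)) ≫ t23 (A.prod Z) (A.prod Z) (A.prod Z) =
      prodMap (prodMap (𝟙 A) (snd Z Z)) (𝟙 (A.prod Z)) := by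
    apply prod_ext <;> simp [dl]
  have hL : T.comp (rel' T A e) (rel' T A e') =
      T.push ((prodMap (𝟙 Z) (dl A Z) ≫ i2 A Z) ≫
          (prodMap (dl A Z) (𝟙 (A.prod Z)) ≫ t13 (A.prod Z) (A.prod Z) (A.prod Z)))
        (T.pull (snd Z (A.prod (Z.prod Z))) (T.pull (snd A (Z.prod Z)) e') *
          T.pull (prodMap (𝟙 Z) (dl A Z) ≫ i2 A Z)
            (T.pull (fst (A.prod (Z.prod Z)) (A.prod Z)) (T.pull (snd A (Z.prod Z)) e))) := by
    rw [TheoryData.comp, rel', rel', T.base_fst, ← T.proj_left, ← T.push_comp, ← T.pull_comp, e1,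
      pull_dl, ← T.proj_right, ← T.push_comp]
  have hR : rel' T A (T.comp e e') =
      T.push (prodMap (𝟙 A) (t13 Z Z Z) ≫ dl A Z)
        (T.pull (snd A ((Z.prod Z).prod Z)) (T.pull (t23 Z Z Z) e' * T.pull (fst (Z.prod Z) Z) e)) := by
    rw [rel', TheoryData.comp, T.base_snd, ← T.push_comp]
  rw [hL, hR, push_model T (m1 A Z) (m2 A Z) m1_m2 m2_m1, map_mul (T.pull (m1 A Z)),
    map_mul (T.pull (snd A ((Z.prod Z).prod Z)))]
  simp only [← T.pull_comp]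
  have a1 : m1 A Z ≫ snd Z (A.prod (Z.prod Z)) ≫ snd A (Z.prod Z) =
      snd A ((Z.prod Z).prod Z) ≫ t23 Z Z Z := by
    simp [m1]
  have a2 : m1 A Z ≫ (prodMap (𝟙 Z) (dl A Z) ≫ i2 A Z) ≫ fst (A.prod (Z.prod Z)) (A.prod Z) ≫
      snd A (Z.prod Z) = snd A ((Z.prod Z).prod Z) ≫ fst (Z.prod Z) Z := by
    apply prod_ext <;> simp [m1, dl, i2, t23, comp_lift]
  have a3 : m1 A Z ≫ (prodMap (𝟙 Z) (dl A Z) ≫ i2 A Z) ≫ prodMap (dl A Z) (𝟙 (A.prod Z)) ≫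
      t13 (A.prod Z) (A.prod Z) (A.prod Z) = prodMap (𝟙 A) (t13 Z Z Z) ≫ dl A Z := by
    apply prod_ext
    · apply prod_ext <;> simp [m1, dl, i2, t13, t23, comp_lift]
    · apply prod_ext <;> simp [m1, dl, i2, t13, t23, comp_lift]
  rw [a1, a2, a3]

end

section

variable {C : TheoryData.{u, v, 0} 𝒱 ℚ} [hC : IsChow C] {A Z : 𝒱.Obj}

include hC in
/-- **`1 × e` is idempotent.** -/
theorem isIdempotent_relative (hI : IsoInvariant C) {e : C.A (Z.prod Z)} (he : IsIdempotent C e) :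
    IsIdempotent C (relative C A e) := by
  have h0 := hasIso_of_isoInvariant hI
  have h1 := rel_comp (A := A) C e e
  have h2 : C.comp e e = e := he
  rw [h2] at h1
  exact h1

end

end Pool.Agent.U231.FR.Nc
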