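import Pool.Agent.N876.CG.Tower
import Pool.Agent.U231.FR.NcRel
import Pool.Agent.U231.FR.NcDefs
import Pool.Agent.U231.FR.Pa

/-!
# Noncommutative motives and varieties of Fermat type
-/

set_option autoImplicit false
set_option linter.unusedSectionVars false

open Finset Polynomial CategoryTheory AlgebraicGeometry

namespace Pool.Agent.U231.FR.Nc

open Pool.Agent.H914 Pool.Agent.H914.VarClass Pool.Agent.H914.VarClass.Obj Pool.Agent.W492.BB
  Pool.Agent.W484.CK Pool.Agent.U231.FF Pool.Agent.U231.FR.Base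

section

variable {p : ℕ} [Fact p.Prime] {κ : Type} [Field κ] [Fintype κ] [CharP κ p] {ι : Type}
    {N s : ι → ℕ} {𝒱 : VarClass κ} {A : TheoryData.{0, 0, 0} 𝒱 ℚ} [IsChow A] {K : Type} [Field K]
    [IsAlgClosed K] [CharZero K] {H : WeilTheoryData.{0, 0, 0} A K} [IsWeil H] {τ : K →+* ℂ}
    {F : ∀ X : 𝒱.Obj, X ⟶ X} {X : ι → 𝒱.Obj} {Z : 𝒱.Obj}

/-- the hypotheses of the library `N876.CG` -/
theorem IsFermatBase.cr (h : IsFermatBase p N s H τ F X Z) :
    ∃ S : ι → Set K, Pool.Agent.N876.CG.Cr H F (Fintype.card κ) X Z S {1} := by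
  obtain ⟨⟨hprime, hne⟩, hstd, hfrob, hprod, hferm, hpol, hbase⟩ := h
  choose T₀ hT₀ hTtop hTS using hferm
  have hroot : ∀ ρ : K, aeval ρ (Polynomial.X - 1 : ℚ[X]) = 0 ↔ ρ = 1 := by
    intro ρ
    rw [map_sub, map_one, aeval_X, sub_eq_zero]
  have hB : {ρ : K | aeval ρ (Polynomial.X - 1 : ℚ[X]) = 0} = {1} := by
    ext ρ
    rw [Set.mem_ofPred_eq, hroot, Set.mem_singleton_iff]
  have h1 := Pool.Agent.U231.FR.cr_of (p := p) (χ := (Polynomial.X - 1 : ℚ[X])) τ hprime hne
    (isStandard_bridge hstd) (fun X => isFrobenius_bridge (hfrob X)) hprod T₀ hT₀ hTtop hTS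
    (fun β hβ => (hbase _ ⟨β, hβ, rfl⟩).1) (by
      rintro b ⟨β, ρ, hβ, hρ, rfl⟩
      rw [hroot] at hρ
      rw [hρ, mul_one]
      exact hbase _ ⟨β, hβ, rfl⟩)
  rw [hB] at h1
  exact ⟨_, h1⟩

/-- there are no resonances -/
theorem nores_tw {S : ι → Set K} {Q : ℕ} (h : Pool.Agent.N876.CG.Cr H F Q X Z S {1}) {i : ι}
    {L : List ι} (hi : i ∉ L) (hL : L.Nodup) {α : K} (hα : α ∈ S i) {γ : K}
    (hγ : (Pool.Agent.W484.CH.frob H (F (Pool.Agent.N876.CG.tw X Z L))).HasEigenvalue γ)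
    (n : ℤ) : α * γ ≠ (Q : K) ^ n := by
  classical
  have key : ∀ e' w : ℕ, α * γ * (Q : K) ^ e' ≠ (Q : K) ^ w := by
    intro e' w heq
    obtain ⟨I, α', β, e, hI, hα', hβ, rfl⟩ := h.eig_tw L hL γ hγ
    have hiI : i ∉ I := fun h0 => hi (hI i h0)
    refine h.res (insert i I) (Finset.insert_nonempty i I) (Function.update α' i α) ?_ (β * 1)
      ⟨β, 1, hβ, rfl, rfl⟩ (e + e') 1 w one_pos ?_
    · intro i' hi'
      rcases Finset.mem_insert.1 hi' with rfl | hi'
      · rw [Function.update_self]; exact hα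
      · rw [Function.update_of_ne (ne_of_mem_of_not_mem hi' hiI)]
        exact hα' i' hi'
    · rw [Finset.prod_insert hiI, Function.update_self,
        Finset.prod_congr rfl fun i' hi' =>
          Function.update_of_ne (ne_of_mem_of_not_mem hi' hiI) α α', pow_one, one_mul, ← heq,
          pow_add]
      ring
  have hQ : (Q : K) ≠ 0 := by
    have := h.one_lt
    have h1 : Q ≠ 0 := by omega
    exact_mod_cast h1
  intro heq
  rcases Int.le_total 0 n with hn | hn
  · obtain ⟨m, rfl⟩ := Int.eq_ofNat_of_zero_le hn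
    refine key 0 m ?_
    rw [pow_zero, mul_one, heq]
    exact zpow_natCast _ _
  · obtain ⟨m, hm⟩ := Int.eq_ofNat_of_zero_le (neg_nonneg.2 hn)
    refine key m 0 ?_
    have h3 : n = -(m : ℤ) := by omega
    rw [heq, h3, pow_zero, zpow_neg, zpow_natCast, inv_mul_cancel₀ (pow_ne_zero _ hQ)]

/-- **one step** -/
theorem IsFermatBase.step (h : IsFermatBase p N s H τ F X Z) {i : ι} {L : List ι} (hi : i ∉ L)
    (hL : L.Nodup) :
    ∃ (J : Type) (_ : Fintype J) (_ : Nonempty J) (deg : J → ℕ) (D E : J → A.A (X i)),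
      Pool.Agent.W484.CH.IsDual (X i) (productOf X Z L) deg D E ∧
      (∀ (n : ℤ) (w : H.A ((X i).prod (productOf X Z L))),
        H.pull (prodMap (F (X i)) (F (productOf X Z L))) w = (Fintype.card κ : K) ^ n • w →
        H.act (H.cl (Pool.Agent.W484.CH.proj (productOf X Z L) D E)) w = w) ∧
      ∀ T : MotivicData A, IsMotivic T → (∀ V, ActsAsPower T (F V) (Fintype.card κ)) →
        Nilpotence H (productOf X Z (i :: L)) →
        ∀ (n : ℤ) (m : T.M ((X i).prod (productOf X Z L))),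
          m ∈ T.gr ((X i).prod (productOf X Z L)) n →
          m = ∑ j, T.act (Pool.Agent.W484.CH.extBy A (productOf X Z L) (D j))
            (T.act (Pool.Agent.W484.CH.pairBy A (productOf X Z L) (E j)) m) := by
  obtain ⟨S, hsys⟩ := h.cr
  have hcg := hsys.cg i
  have hres := fun (α : K) (hα : α ∈ S i) (γ : K) hγ (n : ℤ) =>
    nores_tw hsys hi hL hα (γ := γ) hγ n
  obtain ⟨J, hJ, deg, D, E, h1, h2, h3⟩ := hsys.step hi hL
  obtain ⟨j₀, -⟩ := Pool.Agent.N876.CG.exists_deg_big (h.polarized i) h2 (Nat.zero_le (X i).dim)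
  rw [← Pa.tw_eq] at h1 h3 hres
  refine ⟨J, hJ, ⟨j₀⟩, deg, D, E, h1, fun n w hw => ?_, fun T hT hTF hnil n m hm => ?_⟩
  · apply Pool.Agent.N876.CG.act_proj_mixA h1 h2
    refine Pool.Agent.N876.CG.mem_mixA (πZ := F (productOf X Z L)) (isStandard_bridge h.standard)
      (isFrobenius_bridge (h.frobenius (X i))) hsys.one_lt hcg n
      (fun α hα β hβ => hres α hα β hβ n) 1 w ?_
    unfold Pool.Agent.W484.CH.op
    rw [pow_one, LinearMap.sub_apply, LinearMap.smul_apply, Module.End.one_apply, sub_eq_zero]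
    exact hw
  · have hrel : Pool.Agent.N876.CG.RelTheory (toCorr T) (fun V => (1 : Module.End ℚ ((toCorr T).M V))) F
        (Fintype.card κ) (Polynomial.X - 1 : ℚ[X]) :=
      { corr := toCorr_isCorrTheory hT
        comm := fun Γ t => rfl
        power := fun V n t ht => ⟨1, by
          rw [pow_one, mul_one, LinearMap.sub_apply, LinearMap.smul_apply, Module.End.one_apply,
            sub_eq_zero]
          exact hTF V n t ht⟩
        poly := fun V n t ht => by
          rw [map_sub, map_one, aeval_X, sub_self, LinearMap.zero_apply] }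
    have h4 := h3 (toCorr T) (fun V => 1) (Polynomial.X - 1) (by simp) (fun ρ hρ => by
      rw [map_sub, map_one, aeval_X, sub_eq_zero] at hρ
      exact hρ) hrel (Pool.Agent.N876.CG.nilT_of (toCorr_isCorrTheory hT)
        (nilpotence_bridge hnil))
    obtain ⟨z, ⟨hz, hmz⟩, -⟩ := h4 n m hm
    have h5 : ∀ j, z j = T.act (Pool.Agent.W484.CH.pairBy A (productOf X Z L) (E j)) m := by
      intro j
      rw [hmz]
      exact (pair_sum hT h1 j z).symm
    conv_lhs => rw [hmz]
    exact Finset.sum_congr rfl fun j _ => by rw [h5 j]; rfl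

end

end Pool.Agent.U231.FR.Nc
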