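import Pool.Agent.U231.FR.Nc

/-!
# Noncommutative motives and varieties of Fermat type: the theorems
-/

set_option autoImplicit false
set_option linter.unusedSectionVars false

open Finset Polynomial CategoryTheory AlgebraicGeometry

namespace Pool.Agent.U231.FR.Nc

open Pool.Agent.H914 Pool.Agent.H914.VarClass Pool.Agent.H914.VarClass.Obj Pool.Agent.W492.BB
  Pool.Agent.W484.CK Pool.Agent.U231.FF Pool.Agent.U231.FR.Base

variable {p : ℕ} [Fact p.Prime] {κ : Type} [Field κ] [Fintype κ] [CharP κ p] {ι : Type}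
    {N s : ι → ℕ} {𝒱 : VarClass κ} {A : TheoryData.{0, 0, 0} 𝒱 ℚ} [IsChow A] {K : Type} [Field K]
    [IsAlgClosed K] [CharZero K] {H : WeilTheoryData.{0, 0, 0} A K} [IsWeil H] {τ : K →+* ℂ}
    {F : ∀ X : 𝒱.Obj, X ⟶ X} {X : ι → 𝒱.Obj} {Z : 𝒱.Obj}

/-- the property of the Chow groups used for `K_0` -/
theorem chow_expand (h : IsFermatBase p N s H τ F X Z)
    (hnil : ∀ L, Nilpotence H (productOf X Z L)) {i : ι} {L : List ι} (hi : i ∉ L)
    (hL : L.Nodup) :
    ∃ (J : Type) (_ : Fintype J) (_ : Nonempty J) (deg : J → ℕ) (D E : J → A.A (X i)),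
      Pool.Agent.W484.CH.IsDual (X i) (productOf X Z L) deg D E ∧
      ∀ (n : ℤ) (m : A.A ((X i).prod (productOf X Z L))),
          m ∈ A.gr ((X i).prod (productOf X Z L)) n →
          m = ∑ j, (chowMot A).act (Pool.Agent.W484.CH.extBy A (productOf X Z L) (D j))
            ((chowMot A).act (Pool.Agent.W484.CH.pairBy A (productOf X Z L) (E j)) m) := by
  obtain ⟨J, hJ, hne, deg, D, E, h1, -, h3⟩ := h.step hi hL
  exact ⟨J, hJ, hne, deg, D, E, h1, fun n m hm => h3 (chowMot A) chowMot_isMotivic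
    (fun V => chowMot_actsAsPower (h.frobenius V)) (hnil (i :: L)) n m hm⟩

/-- **Beilinson.** -/
theorem beilinson (h : IsFermatBase p N s H τ F X Z) (hI : IsoInvariant A)
    (hnil : ∀ L, Nilpotence H (productOf X Z L)) (e : A.A (Z.prod Z)) {L : List ι}
    (hL : L.Nodup) : (IsNondegenerate H (relativeOf X e L) ↔ IsNondegenerate H e) ∧
      ∀ i, i ∉ L → ∃ (J : Type) (_ : Fintype J) (deg : J → ℕ) (D : J → A.A (X i)),
        (∀ j, A.Deg (deg j) (D j)) ∧ KZeroKunneth H (X i) (relativeOf X e L) D := by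
  constructor
  · induction L with
    | nil => exact Iff.rfl
    | cons i L ih =>
      rw [List.nodup_cons] at hL
      obtain ⟨J, hJ, hne, deg, D, E, h1, h2⟩ := chow_expand h hnil hL.1 hL.2
      exact (nondegenerate_iff h1 hI h2 (relativeOf X e L)).trans (ih hL.2)
  · intro i hi
    obtain ⟨J, hJ, hne, deg, D, E, h1, h2⟩ := chow_expand h hnil hi hL
    exact ⟨J, hJ, deg, D, h1.left, kzeroKunneth_of h1 hI h2 (relativeOf X e L)⟩

/-- **Parshin.** -/
theorem parshin (h : IsFermatBase p N s H τ F X Z) (hI : IsoInvariant A)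
    (hnil : ∀ L, Nilpotence H (productOf X Z L)) (T : MotivicData A) (hT : IsMotivic T)
    (hex : T.IsExhausted) (hTF : ∀ V, ActsAsPower T (F V) (Fintype.card κ))
    (e : A.A (Z.prod Z)) {L : List ι} (hL : L.Nodup) :
    (T.Trivial (relativeOf X e L) ↔ T.Trivial e) ∧
      ∀ i, i ∉ L → ∃ (J : Type) (_ : Fintype J) (deg : J → ℕ) (D : J → A.A (X i)),
        (∀ j, A.Deg (deg j) (D j)) ∧ T.KunnethFor (X i) (relativeOf X e L) D := by
  constructor
  · induction L with
    | nil => exact Iff.rfl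
    | cons i L ih =>
      rw [List.nodup_cons] at hL
      obtain ⟨J, hJ, hne, deg, D, E, h1, -, h3⟩ := h.step hL.1 hL.2
      exact (trivial_iff hI hT h1 hex (h3 T hT hTF (hnil (i :: L))) (relativeOf X e L)).trans
        (ih hL.2)
  · intro i hi
    obtain ⟨J, hJ, hne, deg, D, E, h1, -, h3⟩ := h.step hi hL
    exact ⟨J, hJ, deg, D, h1.left, kunnethFor_of hI hT h1 hex (h3 T hT hTF (hnil (i :: L)))
      (relativeOf X e L)⟩

theorem isIdempotent_relativeOf (hI : IsoInvariant A) {e : A.A (Z.prod Z)}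
    (he : IsIdempotent A e) (L : List ι) : IsIdempotent A (relativeOf X e L) := by
  induction L with
  | nil => exact he
  | cons i L ih => exact isIdempotent_relative hI ih

/-- **Homological and numerical equivalence.** -/
theorem homNum (h : IsFermatBase p N s H τ F X Z) (hI : IsoInvariant A)
    {e : A.A (Z.prod Z)} (he : IsIdempotent A e) {L : List ι} (hL : L.Nodup) :
    (HomEqNum H (relativeOf X e L) ↔ HomEqNum H e) ∧
      ∀ i, i ∉ L → ∃ (J : Type) (_ : Fintype J) (deg : J → ℕ) (D : J → A.A (X i)),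
        (∀ j, A.Deg (deg j) (D j)) ∧ HomKunneth H (X i) (relativeOf X e L) D := by
  have hF : ∀ i L, IsFrobenius A
      (prodMap (F (X i)) (F (productOf X Z L))) (Fintype.card κ) := fun i L => by
    rw [← h.product]
    exact h.frobenius _
  constructor
  · induction L with
    | nil => exact Iff.rfl
    | cons i L ih =>
      rw [List.nodup_cons] at hL
      obtain ⟨J, hJ, hne, deg, D, E, h1, h2, -⟩ := h.step hL.1 hL.2
      exact (homEqNum_iff h1 (hF i L) h2 hI (isIdempotent_relativeOf hI he L)).trans (ih hL.2)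
  · intro i hi
    obtain ⟨J, hJ, hne, deg, D, E, h1, h2, -⟩ := h.step hi hL
    exact ⟨J, hJ, deg, D, h1.left, homKunneth_of h1 (hF i L) h2 hI
      (isIdempotent_relativeOf hI he L)⟩

/-- **The Tate conjecture.** -/
theorem tate (h : IsFermatBase p N s H τ F X Z) (hI : IsoInvariant A)
    {e : A.A (Z.prod Z)} (he : IsIdempotent A e) {L : List ι} (hL : L.Nodup) :
    (NCTateConjecture H (F (productOf X Z L)) (Fintype.card κ) (relativeOf X e L) ↔
        NCTateConjecture H (F Z) (Fintype.card κ) e) ∧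
      ∀ i, i ∉ L → ∃ (J : Type) (_ : Fintype J) (deg : J → ℕ) (D : J → A.A (X i)),
        (∀ j, A.Deg (deg j) (D j)) ∧ TateKunneth H (F (X i)) (F (productOf X Z L))
        (Fintype.card κ) (relativeOf X e L) D := by
  have hQ : Fintype.card κ ≠ 0 := Fintype.card_ne_zero
  constructor
  · induction L with
    | nil => exact Iff.rfl
    | cons i L ih =>
      rw [List.nodup_cons] at hL
      obtain ⟨J, hJ, hne, deg, D, E, h1, h2, -⟩ := h.step hL.1 hL.2
      have h3 := ncTate_iff (H := H) hI h1 hQ (isFrobenius_bridge (h.frobenius (X i))) h2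
        (isIdempotent_relativeOf hI he L)
      rw [← h.product] at h3
      exact h3.trans (ih hL.2)
  · intro i hi
    obtain ⟨J, hJ, hne, deg, D, E, h1, h2, -⟩ := h.step hi hL
    exact ⟨J, hJ, deg, D, h1.left, tateKunneth_of hI h1 hQ
      (isFrobenius_bridge (h.frobenius (X i))) h2 (relativeOf X e L)⟩

end Pool.Agent.U231.FR.Nc
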