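import Pool.Agent.Y122.NCP.Defs
import Pool.Agent.U231.FR.NcMain

/-!
# Noncommutative motives and varieties of Fermat type: the final form of the theorems
-/

set_option autoImplicit false
set_option linter.unusedSectionVars false

open Finset Polynomial CategoryTheory AlgebraicGeometry

namespace Pool.Agent.U231.FR.Nc

open Pool.Agent.H914 Pool.Agent.H914.VarClass Pool.Agent.H914.VarClass.Obj Pool.Agent.W492.BB
  Pool.Agent.W484.CK Pool.Agent.U231.FF Pool.Agent.U231.FR.Base Pool.Agent.Y122.NCP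

variable {p : ℕ} [Fact p.Prime] {κ : Type} [Field κ] [Fintype κ] [CharP κ p] {ι : Type}
    {N s : ι → ℕ} {𝒱 : VarClass κ} {A : TheoryData.{0, 0, 0} 𝒱 ℚ} [IsChow A] {K : Type} [Field K]
    [IsAlgClosed K] [CharZero K] {H : WeilTheoryData.{0, 0, 0} A K} [IsWeil H] {τ : K →+* ℂ}
    {F : ∀ X : 𝒱.Obj, X ⟶ X} {X : ι → 𝒱.Obj} {Z : 𝒱.Obj}

/-- **Beilinson.** -/
theorem beilinsonAll (h : IsFermatBase p N s H τ F X Z) (hI : IsoInvariant A)
    (hnil : ∀ L, Nilpotence H (productOf X Z L)) {L : List ι} (hL : L.Nodup) :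
    (∀ e : A.A (Z.prod Z), IsIdempotent A e →
      (IsNondegenerate H (relativeOf X e L) ↔ IsNondegenerate H e)) ∧
      ∀ i, i ∉ L → ∃ (J : Type) (_ : Fintype J) (deg : J → ℕ) (D : J → A.A (X i)),
        (∀ j, A.Deg (deg j) (D j)) ∧ ∀ e : A.A (Z.prod Z), IsIdempotent A e →
          KZeroKunneth H (X i) (relativeOf X e L) D := by
  refine ⟨fun e _ => (beilinson h hI hnil e hL).1, fun i hi => ?_⟩
  obtain ⟨J, hJ, hne, deg, D, E, h1, h2⟩ := chow_expand h hnil hi hL
  exact ⟨J, hJ, deg, D, h1.left, fun e _ => kzeroKunneth_of h1 hI h2 (relativeOf X e L)⟩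

/-- **Parshin.** -/
theorem parshinAll (h : IsFermatBase p N s H τ F X Z) (hI : IsoInvariant A)
    (hnil : ∀ L, Nilpotence H (productOf X Z L)) (T : ℕ → MotivicData A)
    (hT : ∀ V, IsKTheory T (F V) (Fintype.card κ)) {L : List ι} (hL : L.Nodup) :
    (∀ e : A.A (Z.prod Z), IsIdempotent A e →
      (NCParshin T (relativeOf X e L) ↔ NCParshin T e)) ∧
      ∀ i, i ∉ L → ∃ (J : Type) (_ : Fintype J) (deg : J → ℕ) (D : J → A.A (X i)),
        (∀ j, A.Deg (deg j) (D j)) ∧ ∀ e : A.A (Z.prod Z), IsIdempotent A e →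
          ∀ n, (T n).KunnethFor (X i) (relativeOf X e L) D := by
  refine ⟨fun e _ => ?_, fun i hi => ?_⟩
  · refine forall_congr' fun n => forall_congr' fun _ => ?_
    exact (parshin h hI hnil (T n) ((hT Z).motivic n) ((hT Z).exhausted n)
      (fun V => (hT V).frobenius n) e hL).1
  · obtain ⟨J, hJ, hne, deg, D, E, h1, -, h3⟩ := h.step hi hL
    exact ⟨J, hJ, deg, D, h1.left, fun e _ n => kunnethFor_of hI ((hT Z).motivic n) h1
      ((hT Z).exhausted n) (h3 (T n) ((hT Z).motivic n) (fun V => (hT V).frobenius n)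
        (hnil (i :: L))) (relativeOf X e L)⟩

/-- **Homological and numerical equivalence.** -/
theorem homNumAll (h : IsFermatBase p N s H τ F X Z) (hI : IsoInvariant A)
    {L : List ι} (hL : L.Nodup) :
    (∀ e : A.A (Z.prod Z), IsIdempotent A e →
      (HomEqNum H (relativeOf X e L) ↔ HomEqNum H e)) ∧
      ∀ i, i ∉ L → ∃ (J : Type) (_ : Fintype J) (deg : J → ℕ) (D : J → A.A (X i)),
        (∀ j, A.Deg (deg j) (D j)) ∧ ∀ e : A.A (Z.prod Z), IsIdempotent A e →
          HomKunneth H (X i) (relativeOf X e L) D := by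
  refine ⟨fun e he => (homNum h hI he hL).1, fun i hi => ?_⟩
  obtain ⟨J, hJ, hne, deg, D, E, h1, h2, -⟩ := h.step hi hL
  refine ⟨J, hJ, deg, D, h1.left, fun e he => homKunneth_of h1 ?_ h2 hI
      (isIdempotent_relativeOf hI he L)⟩
  rw [← h.product]
  exact h.frobenius _

/-- **The Tate conjecture.** -/
theorem tateAll (h : IsFermatBase p N s H τ F X Z) (hI : IsoInvariant A)
    {L : List ι} (hL : L.Nodup) :
    (∀ e : A.A (Z.prod Z), IsIdempotent A e →
      (NCTateConjecture H (F (productOf X Z L)) (Fintype.card κ) (relativeOf X e L) ↔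
        NCTateConjecture H (F Z) (Fintype.card κ) e)) ∧
      ∀ i, i ∉ L → ∃ (J : Type) (_ : Fintype J) (deg : J → ℕ) (D : J → A.A (X i)),
        (∀ j, A.Deg (deg j) (D j)) ∧ ∀ e : A.A (Z.prod Z), IsIdempotent A e →
          TateKunneth H (F (X i)) (F (productOf X Z L)) (Fintype.card κ)
            (relativeOf X e L) D := by
  refine ⟨fun e he => (tate h hI he hL).1, fun i hi => ?_⟩
  obtain ⟨J, hJ, hne, deg, D, E, h1, h2, -⟩ := h.step hi hL
  exact ⟨J, hJ, deg, D, h1.left, fun e _ => tateKunneth_of hI h1 Fintype.card_ne_zero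
      (isFrobenius_bridge (h.frobenius (X i))) h2 (relativeOf X e L)⟩

end Pool.Agent.U231.FR.Nc
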